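import Mathlib

/-!
The Gauss map, digits, inverse branches.
-/

open Set Filter MeasureTheory
open scoped Topology ENNReal NNReal

namespace Pool.Agent.Lib.MP_034ad4_an

/-- The Gauss map `x ↦ 1/x - ⌊1/x⌋` (with `0 ↦ 0`, since `1/0 = 0`). -/
noncomputable def gauss (x : ℝ) : ℝ := Int.fract (1 / x)

/-- The asymptotic set of `x` under the Gauss map. -/
def asym (x : ℝ) : Set ℝ :=
  {y | y ∈ Ico (0:ℝ) 1 ∧ Tendsto (fun n : ℕ => |gauss^[n] x - gauss^[n] y|) atTop (𝓝 0)}

/-- The set of points of `[0,1)` whose asymptotic set has Hausdorff dimension `α`. -/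
noncomputable def Theta (α : ℝ≥0∞) : Set ℝ := {x | x ∈ Ico (0:ℝ) 1 ∧ dimH (asym x) = α}

/-- the `n`-th continued fraction digit (starting at `n = 0`) -/
noncomputable def dig (x : ℝ) (n : ℕ) : ℕ := ⌊1 / gauss^[n] x⌋₊

/-- the irrational points of the unit interval -/
def Irr : Set ℝ := {x | x ∈ Ioo (0:ℝ) 1 ∧ Irrational x}

lemma gauss_mem_Irr {x : ℝ} (hx : x ∈ Irr) : gauss x ∈ Irr := by
  obtain ⟨⟨h0, h1⟩, hirr⟩ := hx
  have h2 : Irrational (1 / x) := by rw [one_div]; exact hirr.inv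
  have h3 : Irrational (gauss x) := by
    unfold gauss
    rw [← Int.self_sub_floor]
    exact h2.sub_intCast _
  refine ⟨⟨lt_of_le_of_ne (Int.fract_nonneg _) (Ne.symm h3.ne_zero), Int.fract_lt_one _⟩, h3⟩

lemma iter_mem_Irr {x : ℝ} (hx : x ∈ Irr) (n : ℕ) : gauss^[n] x ∈ Irr := by
  induction n with
  | zero => exact hx
  | succ n ih => rw [Function.iterate_succ_apply']; exact gauss_mem_Irr ih

lemma dig_zero_eq (x : ℝ) : dig x 0 = ⌊1 / x⌋₊ := rfl

lemma dig_succ (x : ℝ) (n : ℕ) : dig x (n + 1) = dig (gauss x) n := rfl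

lemma dig_add (x : ℝ) (m n : ℕ) : dig x (m + n) = dig (gauss^[m] x) n := by
  unfold dig
  rw [add_comm, Function.iterate_add_apply]

lemma dig_zero_iter (x : ℝ) (n : ℕ) : dig (gauss^[n] x) 0 = dig x n := rfl

lemma one_le_dig_zero {x : ℝ} (hx : x ∈ Irr) : 1 ≤ dig x 0 := by
  obtain ⟨⟨h0, h1⟩, _⟩ := hx
  rw [dig_zero_eq]
  apply Nat.le_floor
  rw [Nat.cast_one, le_div_iff₀ h0]
  linarith

lemma one_le_dig {x : ℝ} (hx : x ∈ Irr) (n : ℕ) : 1 ≤ dig x n :=
  one_le_dig_zero (iter_mem_Irr hx n)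

/-- `x = 1 / (a + G x)` -/
lemma eq_branch {x : ℝ} (hx : x ∈ Irr) : x = 1 / (dig x 0 + gauss x) := by
  obtain ⟨⟨h0, h1⟩, _⟩ := hx
  have h2 : (dig x 0 : ℝ) + gauss x = 1 / x := by
    rw [dig_zero_eq]
    unfold gauss
    rw [natCast_floor_eq_intCast_floor (by positivity : 0 ≤ 1 / x)]
    exact Int.floor_add_fract _
  rw [h2]
  field_simp

/-- The inverse branch associated with a word of digits. -/
noncomputable def psi : List ℕ → ℝ → ℝ
  | [], t => t
  | a :: w, t => 1 / (a + psi w t)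

/-- all digits are positive -/
def PosW (w : List ℕ) : Prop := ∀ a ∈ w, 1 ≤ a

lemma PosW.cons {a : ℕ} {w : List ℕ} (h : PosW (a :: w)) : 1 ≤ a ∧ PosW w :=
  ⟨h a (by simp), fun b hb => h b (by simp [hb])⟩

lemma psi_append (w : List ℕ) (a : ℕ) (t : ℝ) : psi (w ++ [a]) t = psi w (1 / (a + t)) := by
  induction w with
  | nil => rfl
  | cons b w ih => simp only [List.cons_append, psi, ih]

lemma psi_mem {w : List ℕ} (hw : PosW w) {t : ℝ} (ht : t ∈ Icc (0:ℝ) 1) : psi w t ∈ Icc (0:ℝ) 1 := by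
  induction w with
  | nil => exact ht
  | cons a w ih =>
    obtain ⟨ha, hw'⟩ := hw.cons
    have h1 := ih hw'
    have ha' : (1:ℝ) ≤ a := by exact_mod_cast ha
    simp only [psi]
    constructor
    · have := h1.1; positivity
    · rw [div_le_one (by linarith [h1.1])]
      linarith [h1.1]

lemma psi_formula {w : List ℕ} (hw : PosW w) : ∃ p p' q q' : ℝ, 0 ≤ p ∧ 0 ≤ p' ∧ 0 < q ∧ 0 ≤ q' ∧ q' ≤ q ∧
    (p' ≤ p ∨ (p = 0 ∧ p' = 1 ∧ q = 1 ∧ q' = 0)) ∧ |p * q' - p' * q| = 1 ∧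
    ∀ t ∈ Icc (0:ℝ) 1, psi w t = (p + t * p') / (q + t * q') := by
  induction w with
  | nil => exact ⟨0, 1, 1, 0, le_rfl, zero_le_one, one_pos, le_rfl, zero_le_one,
      Or.inr ⟨rfl, rfl, rfl, rfl⟩, by norm_num, fun t _ => by simp [psi]⟩
  | cons a w ih =>
    obtain ⟨ha, hw'⟩ := hw.cons
    have ha' : (1:ℝ) ≤ a := by exact_mod_cast ha
    obtain ⟨p, p', q, q', hp, hp', hq, hq', hqq, hor, hdet, hform⟩ := ih hw'
    refine ⟨q, q', a * q + p, a * q' + p', hq.le, hq', by positivity, by positivity, ?_,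
      Or.inl hqq, ?_, ?_⟩
    · rcases hor with h | ⟨h1, h2, h3, h4⟩
      · nlinarith
      · rw [h1, h2, h3, h4]; linarith
    · have : q * (a * q' + p') - q' * (a * q + p) = -(p * q' - p' * q) := by ring
      rw [this, abs_neg, hdet]
    · intro t ht
      simp only [psi]
      rw [hform t ht]
      have h1 : 0 < q + t * q' := by have := mul_nonneg ht.1 hq'; linarith
      have h2 : 0 ≤ p + t * p' := by have := mul_nonneg ht.1 hp'; linarith
      have h3 : 0 < (a:ℝ) + (p + t * p') / (q + t * q') := by positivity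
      have h4 : 0 < a * q + p + t * (a * q' + p') := by
        have := mul_nonneg ht.1 (by positivity : 0 ≤ a * q' + p')
        have : 0 < a * q := by positivity
        linarith
      field_simp
      ring

/-- Exact distortion formula of an inverse branch. -/
lemma psi_dist {w : List ℕ} (hw : PosW w) : ∃ q q' : ℝ, 0 < q ∧ 0 ≤ q' ∧ q' ≤ q ∧
    ∀ s ∈ Icc (0:ℝ) 1, ∀ t ∈ Icc (0:ℝ) 1,
      |psi w s - psi w t| = |s - t| / ((q + s * q') * (q + t * q')) := by
  obtain ⟨p, p', q, q', hp, hp', hq, hq', hqq, hor, hdet, hform⟩ := psi_formula hw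
  refine ⟨q, q', hq, hq', hqq, fun s hs t ht => ?_⟩
  rw [hform s hs, hform t ht]
  have h1 : 0 < q + t * q' := by have := mul_nonneg ht.1 hq'; linarith
  have h2 : 0 < q + s * q' := by have := mul_nonneg hs.1 hq'; linarith
  have h3 : (p + s * p') / (q + s * q') - (p + t * p') / (q + t * q') =
      (-(p * q' - p' * q) * (s - t)) / ((q + s * q') * (q + t * q')) := by
    rw [div_sub_div _ _ h2.ne' h1.ne']
    congr 1
    ring
  rw [h3, abs_div, abs_mul, abs_neg, hdet, one_mul, abs_of_pos (mul_pos h2 h1)]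

lemma psi_lip {w : List ℕ} (hw : PosW w) {s t : ℝ} (hs : s ∈ Icc (0:ℝ) 1) (ht : t ∈ Icc (0:ℝ) 1) :
    |psi w s - psi w t| ≤ (w.map (fun a : ℕ => 1 / (a:ℝ)^2)).prod * |s - t| := by
  induction w with
  | nil => simp [psi]
  | cons a w ih =>
    obtain ⟨ha, hw'⟩ := hw.cons
    have ha' : (1:ℝ) ≤ a := by exact_mod_cast ha
    have h1 := psi_mem hw' hs
    have h2 := psi_mem hw' ht
    have h3 := ih hw'
    simp only [psi, List.map_cons, List.prod_cons]
    have e : 1 / ((a:ℝ) + psi w s) - 1 / (a + psi w t) =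
        - ((psi w s - psi w t) / ((a + psi w s) * (a + psi w t))) := by
      have : (a:ℝ) + psi w s ≠ 0 := by linarith [h1.1]
      have : (a:ℝ) + psi w t ≠ 0 := by linarith [h2.1]
      field_simp
      ring
    rw [e, abs_neg, abs_div]
    have h4 : (a:ℝ)^2 ≤ |(a + psi w s) * (a + psi w t)| := by
      rw [abs_of_nonneg (mul_nonneg (by linarith [h1.1]) (by linarith [h2.1]))]
      nlinarith [h1.1, h2.1]
    calc |psi w s - psi w t| / |(a + psi w s) * (a + psi w t)| ≤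
          |psi w s - psi w t| / (a:ℝ)^2 := by gcongr
      _ ≤ ((w.map (fun a : ℕ => 1 / (a:ℝ)^2)).prod * |s - t|) / (a:ℝ)^2 := by gcongr
      _ = _ := by ring

lemma psi_colip {w : List ℕ} (hw : PosW w) {s t : ℝ} (hs : s ∈ Icc (0:ℝ) 1) (ht : t ∈ Icc (0:ℝ) 1) :
    (w.map (fun a : ℕ => 1 / ((a:ℝ) + 1)^2)).prod * |s - t| ≤ |psi w s - psi w t| := by
  induction w with
  | nil => simp [psi]
  | cons a w ih =>
    obtain ⟨ha, hw'⟩ := hw.cons
    have ha' : (1:ℝ) ≤ a := by exact_mod_cast ha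
    have h1 := psi_mem hw' hs
    have h2 := psi_mem hw' ht
    have h3 := ih hw'
    simp only [psi, List.map_cons, List.prod_cons]
    have e : 1 / ((a:ℝ) + psi w s) - 1 / (a + psi w t) =
        - ((psi w s - psi w t) / ((a + psi w s) * (a + psi w t))) := by
      have : (a:ℝ) + psi w s ≠ 0 := by linarith [h1.1]
      have : (a:ℝ) + psi w t ≠ 0 := by linarith [h2.1]
      field_simp
      ring
    rw [e, abs_neg, abs_div]
    have h5 : 0 < |(a + psi w s) * (a + psi w t)| := by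
      rw [abs_of_nonneg (mul_nonneg (by linarith [h1.1]) (by linarith [h2.1]))]
      exact mul_pos (by linarith [h1.1]) (by linarith [h2.1])
    have h4 : |(a + psi w s) * (a + psi w t)| ≤ ((a:ℝ) + 1)^2 := by
      rw [abs_of_nonneg (mul_nonneg (by linarith [h1.1]) (by linarith [h2.1]))]
      nlinarith [h1.1, h2.1, h1.2, h2.2]
    have h6 : 0 ≤ (w.map (fun a : ℕ => 1 / ((a:ℝ) + 1)^2)).prod * |s - t| := by
      apply mul_nonneg _ (abs_nonneg _)
      apply List.prod_nonneg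
      intro x hx
      obtain ⟨b, _, rfl⟩ := List.mem_map.1 hx
      positivity
    calc 1 / ((a:ℝ) + 1)^2 * (w.map (fun a : ℕ => 1 / ((a:ℝ) + 1)^2)).prod * |s - t|
        = ((w.map (fun a : ℕ => 1 / ((a:ℝ) + 1)^2)).prod * |s - t|) / ((a:ℝ) + 1)^2 := by ring
      _ ≤ ((w.map (fun a : ℕ => 1 / ((a:ℝ) + 1)^2)).prod * |s - t|) / |(a + psi w s) * (a + psi w t)| := by
          gcongr
      _ ≤ |psi w s - psi w t| / |(a + psi w s) * (a + psi w t)| := by gcongr

lemma psi_nonexp {w : List ℕ} (hw : PosW w) {s t : ℝ} (hs : s ∈ Icc (0:ℝ) 1) (ht : t ∈ Icc (0:ℝ) 1) :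
    |psi w s - psi w t| ≤ |s - t| := by
  refine (psi_lip hw hs ht).trans ?_
  have : (w.map (fun a : ℕ => 1 / (a:ℝ)^2)).prod ≤ 1 := by
    induction w with
    | nil => simp
    | cons a w ih =>
      obtain ⟨ha, hw'⟩ := hw.cons
      have ha' : (1:ℝ) ≤ a := by exact_mod_cast ha
      simp only [List.map_cons, List.prod_cons]
      have h1 : 1 / (a:ℝ)^2 ≤ 1 := by
        rw [div_le_one (by positivity)]; nlinarith
      have h2 : 0 ≤ (w.map (fun a : ℕ => 1 / (a:ℝ)^2)).prod := by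
        apply List.prod_nonneg
        intro x hx
        obtain ⟨b, _, rfl⟩ := List.mem_map.1 hx
        positivity
      calc 1 / (a:ℝ)^2 * (w.map (fun a : ℕ => 1 / (a:ℝ)^2)).prod ≤ 1 * 1 :=
            mul_le_mul h1 (ih hw') h2 (by norm_num)
        _ = 1 := one_mul 1
  calc _ ≤ 1 * |s - t| := by gcongr
    _ = _ := one_mul _

/-- the word of the first `n` digits -/
noncomputable def word (x : ℝ) (n : ℕ) : List ℕ := List.ofFn (fun i : Fin n => dig x i)

lemma word_zero (x : ℝ) : word x 0 = [] := by simp [word]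

lemma word_succ (x : ℝ) (n : ℕ) : word x (n + 1) = dig x 0 :: word (gauss x) n := by
  simp only [word, List.ofFn_succ, Fin.val_zero, Fin.val_succ]
  rfl

lemma posW_word {x : ℝ} (hx : x ∈ Irr) (n : ℕ) : PosW (word x n) := by
  intro a ha
  simp only [word, List.mem_ofFn] at ha
  obtain ⟨i, rfl⟩ := ha
  exact one_le_dig hx i

lemma eq_psi_word {x : ℝ} (hx : x ∈ Irr) (n : ℕ) : x = psi (word x n) (gauss^[n] x) := by
  induction n generalizing x with
  | zero => simp [word_zero, psi]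
  | succ n ih =>
    rw [word_succ, Function.iterate_succ_apply]
    simp only [psi]
    rw [← ih (gauss_mem_Irr hx)]
    exact eq_branch hx

lemma Irr_subset_Icc {x : ℝ} (hx : x ∈ Irr) : x ∈ Icc (0:ℝ) 1 := ⟨hx.1.1.le, hx.1.2.le⟩

end Pool.Agent.Lib.MP_034ad4_an
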