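import Pool.Agent.Lib.MP_034ad4_an.Basic

/-!
Existence of an irrational number with a prescribed sequence of positive digits.
-/

open Set Filter MeasureTheory
open scoped Topology ENNReal NNReal

namespace Pool.Agent.Lib.MP_034ad4_an

lemma rat_terminates (n : ℕ) : ∀ q : ℚ, 0 ≤ q → q.num = n → ∃ k, gauss^[k] (q:ℝ) = 0 := by
  induction n using Nat.strong_induction_on with
  | _ n ih =>
    intro q hq hn
    rcases eq_or_lt_of_le hq with h | h
    · exact ⟨0, by simp [← h]⟩
    · have h1 := Rat.fract_inv_num_lt_num_of_pos h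
      have h2 : 0 ≤ Int.fract q⁻¹ := Int.fract_nonneg _
      have h3 : 0 ≤ (Int.fract q⁻¹).num := Rat.num_nonneg.2 h2
      obtain ⟨m, hm⟩ := Int.eq_ofNat_of_zero_le h3
      rw [hm, hn] at h1
      have h4 : m < n := by exact_mod_cast h1
      obtain ⟨k, hk⟩ := ih m h4 (Int.fract q⁻¹) h2 hm
      refine ⟨k + 1, ?_⟩
      rw [Function.iterate_succ_apply]
      have h5 : gauss (q:ℝ) = ((Int.fract q⁻¹ : ℚ) : ℝ) := by
        unfold gauss
        rw [Rat.cast_fract]
        push_cast
        rw [one_div]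
      rw [h5]; exact hk

lemma irrational_of_orbit {y : ℝ} (hy : 0 ≤ y) (h : ∀ n, gauss^[n] y ≠ 0) : Irrational y := by
  rintro ⟨q, rfl⟩
  have hq : (0:ℚ) ≤ q := by exact_mod_cast hy
  have h3 : 0 ≤ q.num := Rat.num_nonneg.2 hq
  obtain ⟨m, hm⟩ := Int.eq_ofNat_of_zero_le h3
  obtain ⟨k, hk⟩ := rat_terminates m q hq hm
  exact h k hk

theorem exists_digits (A : ℕ → ℕ) (hA : ∀ n, 1 ≤ A n) : ∃ y ∈ Irr, ∀ n, dig y n = A n := by
  set C : ℕ → Set (ℕ → ℝ) := fun n => {t | (∀ i, t i ∈ Icc (0:ℝ) 1) ∧ ∀ i < n, t i * (A i + t (i + 1)) = 1}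
  have hcompact : IsCompact (C 0) := by
    have : C 0 = Set.pi univ (fun _ : ℕ => Icc (0:ℝ) 1) := by
      ext t
      simp only [C, mem_ofPred_eq, mem_univ_pi]
      exact ⟨fun h => h.1, fun h => ⟨h, fun i hi => absurd hi (Nat.not_lt_zero i)⟩⟩
    rw [this]
    exact isCompact_univ_pi (fun _ => isCompact_Icc)
  have hclosed : ∀ n, IsClosed (C n) := by
    intro n
    have h1 : IsClosed {t : ℕ → ℝ | ∀ i, t i ∈ Icc (0:ℝ) 1} := by
      simp only [ofPred_forall]
      exact isClosed_iInter fun i => isClosed_Icc.preimage (continuous_apply i)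
    have h2 : IsClosed {t : ℕ → ℝ | ∀ i < n, t i * (A i + t (i + 1)) = 1} := by
      simp only [ofPred_forall]
      refine isClosed_iInter fun i => isClosed_iInter fun _ => ?_
      exact isClosed_eq (by fun_prop) continuous_const
    exact h1.inter h2
  have hne : ∀ n, (C n).Nonempty := by
    intro n
    refine ⟨fun i => psi ((List.range' i (n - i)).map A) 0, fun i => ?_, fun i hi => ?_⟩
    · apply psi_mem _ ⟨le_rfl, zero_le_one⟩
      intro a ha
      obtain ⟨b, _, rfl⟩ := List.mem_map.1 ha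
      exact hA b
    · have h1 : n - i = (n - (i + 1)) + 1 := by omega
      have h2 : List.range' i (n - i) = i :: List.range' (i + 1) (n - (i + 1)) := by
        rw [h1, List.range'_succ]
      simp only [h2, List.map_cons, psi]
      have h3 : psi ((List.range' (i + 1) (n - (i + 1))).map A) 0 ∈ Icc (0:ℝ) 1 := by
        apply psi_mem _ ⟨le_rfl, zero_le_one⟩
        intro a ha
        obtain ⟨b, _, rfl⟩ := List.mem_map.1 ha
        exact hA b
      have h4 : (1:ℝ) ≤ A i := by exact_mod_cast hA i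
      have h5 : (A i : ℝ) + psi ((List.range' (i + 1) (n - (i + 1))).map A) 0 ≠ 0 := by
        have := h3.1; linarith
      field_simp
  have hmono : ∀ n, C (n + 1) ⊆ C n := fun n t ht => ⟨ht.1, fun i hi => ht.2 i (by omega)⟩
  obtain ⟨t, ht⟩ := IsCompact.nonempty_iInter_of_sequence_nonempty_isCompact_isClosed C hmono hne hcompact hclosed
  rw [mem_iInter] at ht
  have h01 : ∀ i, t i ∈ Icc (0:ℝ) 1 := (ht 0).1
  have heq : ∀ i, t i * (A i + t (i + 1)) = 1 := fun i => (ht (i + 1)).2 i (Nat.lt_succ_self i)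
  have hpos : ∀ i, 0 < t i := by
    intro i
    rcases eq_or_lt_of_le (h01 i).1 with h | h
    · exfalso; have := heq i; rw [← h, zero_mul] at this; exact zero_ne_one this
    · exact h
  have hAR : ∀ i, (1:ℝ) ≤ A i := fun i => by exact_mod_cast hA i
  have hlt : ∀ i, t i < 1 := by
    intro i
    have h1 := heq i
    have h2 := hpos (i + 1)
    have h3 := hpos i
    have h4 := hAR i
    by_contra hcon
    push Not at hcon
    nlinarith
  have hinv : ∀ i, 1 / t i = A i + t (i + 1) := by
    intro i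
    have h1 := heq i
    have h3 := hpos i
    rw [div_eq_iff h3.ne', mul_comm]
    exact h1.symm
  have hg : ∀ i, gauss (t i) = t (i + 1) := by
    intro i
    unfold gauss
    rw [hinv i, Int.fract_natCast_add]
    exact Int.fract_eq_self.2 ⟨(hpos _).le, hlt _⟩
  have hit : ∀ n, gauss^[n] (t 0) = t n := by
    intro n
    induction n with
    | zero => rfl
    | succ n ih => rw [Function.iterate_succ_apply', ih, hg]
  refine ⟨t 0, ⟨⟨hpos 0, hlt 0⟩, irrational_of_orbit (hpos 0).le fun n => ?_⟩, fun n => ?_⟩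
  · rw [hit n]; exact (hpos n).ne'
  · unfold dig
    rw [hit n, hinv n]
    rw [Nat.floor_eq_iff (by have := hpos (n+1); have := hAR n; linarith)]
    constructor
    · linarith [hpos (n + 1)]
    · linarith [hlt (n + 1)]

end Pool.Agent.Lib.MP_034ad4_an
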