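import Pool.Agent.Lib.MP_034ad4_an.Basic

/-!
Lebesgue measure estimates for digits.
-/

open Set Filter MeasureTheory
open scoped Topology ENNReal NNReal

namespace Pool.Agent.Lib.MP_034ad4_an

lemma psi_add {w : List ℕ} (hw : PosW w) {s t u : ℝ} (hs : 0 ≤ s) (hst : s ≤ t) (htu : t ≤ u) (hu : u ≤ 1) :
    |psi w s - psi w t| + |psi w t - psi w u| = |psi w s - psi w u| := by
  obtain ⟨q, q', hq, hq', hqq, h⟩ := psi_dist hw
  have hs' : s ∈ Icc (0:ℝ) 1 := ⟨hs, by linarith⟩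
  have ht' : t ∈ Icc (0:ℝ) 1 := ⟨by linarith, by linarith⟩
  have hu' : u ∈ Icc (0:ℝ) 1 := ⟨by linarith, hu⟩
  rw [h s hs' t ht', h t ht' u hu', h s hs' u hu']
  have h1 : 0 < q + s * q' := by have := mul_nonneg hs'.1 hq'; linarith
  have h2 : 0 < q + t * q' := by have := mul_nonneg ht'.1 hq'; linarith
  have h3 : 0 < q + u * q' := by have := mul_nonneg hu'.1 hq'; linarith
  rw [abs_sub_comm s t, abs_sub_comm t u, abs_sub_comm s u, abs_of_nonneg (by linarith : 0 ≤ t - s),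
    abs_of_nonneg (by linarith : 0 ≤ u - t), abs_of_nonneg (by linarith : 0 ≤ u - s)]
  rw [div_add_div _ _ (mul_pos h1 h2).ne' (mul_pos h2 h3).ne', div_eq_div_iff
    (mul_pos (mul_pos h1 h2) (mul_pos h2 h3)).ne' (mul_pos h1 h3).ne']
  ring

lemma psi_image_volume {w : List ℕ} (hw : PosW w) {s u : ℝ} (hs : 0 ≤ s) (hsu : s ≤ u) (hu : u ≤ 1) :
    volume (psi w '' Icc s u) ≤ ENNReal.ofReal |psi w s - psi w u| := by
  have hsub : psi w '' Icc s u ⊆ uIcc (psi w s) (psi w u) := by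
    rintro _ ⟨t, ht, rfl⟩
    have h := psi_add hw hs ht.1 ht.2 hu
    have h1 := abs_nonneg (psi w s - psi w t)
    have h2 := abs_nonneg (psi w t - psi w u)
    rcases le_total (psi w s) (psi w u) with hle | hle
    · rw [uIcc_of_le hle]
      rw [abs_sub_comm (psi w s) (psi w u), abs_of_nonneg (by linarith : 0 ≤ psi w u - psi w s)] at h
      constructor
      · have := neg_abs_le (psi w t - psi w u)
        have := le_abs_self (psi w t - psi w u)
        by_contra hcon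
        push Not at hcon
        have h3 : |psi w t - psi w u| = psi w u - psi w t := by
          rw [abs_sub_comm, abs_of_nonneg (by linarith)]
        linarith
      · by_contra hcon
        push Not at hcon
        have h3 : |psi w s - psi w t| = psi w t - psi w s := by
          rw [abs_sub_comm, abs_of_nonneg (by linarith)]
        linarith
    · rw [uIcc_of_ge hle]
      rw [abs_of_nonneg (by linarith : 0 ≤ psi w s - psi w u)] at h
      constructor
      · by_contra hcon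
        push Not at hcon
        have h3 : |psi w s - psi w t| = psi w s - psi w t := abs_of_nonneg (by linarith)
        linarith
      · by_contra hcon
        push Not at hcon
        have h3 : |psi w t - psi w u| = psi w t - psi w u := abs_of_nonneg (by linarith)
        linarith
  refine (measure_mono hsub).trans ?_
  rw [Real.volume_interval, abs_sub_comm]

/-- sets whose images under all branches have proportion at most `c` -/
def Good (c : ℝ) (A : Set ℝ) : Prop :=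
  ∀ w : List ℕ, PosW w → volume (psi w '' A) ≤ ENNReal.ofReal (c * |psi w 0 - psi w 1|)

lemma good_Irr : Good 1 Irr := by
  intro w hw
  rw [one_mul]
  refine (measure_mono (image_mono fun x hx => Irr_subset_Icc hx)).trans ?_
  exact psi_image_volume hw le_rfl zero_le_one le_rfl

lemma psi_append_ends (w : List ℕ) (k : ℕ) :
    |psi (w ++ [k + 1]) 0 - psi (w ++ [k + 1]) 1| =
      |psi w (1 / ((k:ℝ) + 1)) - psi w (1 / ((k:ℝ) + 2))| := by
  rw [psi_append, psi_append]
  congr 3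
  · push_cast; ring_nf
  · push_cast; ring_nf

lemma sum_telescope {w : List ℕ} (hw : PosW w) (n : ℕ) :
    ∑ k ∈ Finset.range n, |psi w (1 / ((k:ℝ) + 1)) - psi w (1 / ((k:ℝ) + 2))| =
      |psi w 1 - psi w (1 / ((n:ℝ) + 1))| := by
  induction n with
  | zero => simp
  | succ n ih =>
    rw [Finset.sum_range_succ, ih]
    have h1 : (1:ℝ) / ((n:ℝ) + 2) ≤ 1 / ((n:ℝ) + 1) := by
      apply one_div_le_one_div_of_le <;> linarith
    have h2 : (1:ℝ) / ((n:ℝ) + 1) ≤ 1 := by
      rw [div_le_one (by positivity)]; linarith [(Nat.cast_nonneg n : (0:ℝ) ≤ n)]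
    have h3 := psi_add hw (by positivity : (0:ℝ) ≤ 1 / ((n:ℝ) + 2)) h1 h2 le_rfl
    have h4 : (((n + 1 : ℕ) : ℝ) + 1) = (n:ℝ) + 2 := by push_cast; ring
    rw [h4, abs_sub_comm (psi w 1), abs_sub_comm (psi w 1), ← h3, abs_sub_comm (psi w (1 / ((n:ℝ) + 2))) (psi w (1 / ((n:ℝ) + 1)))]
    ring

/-- general step -/
lemma good_step {c c' : ℝ} (hc : 0 ≤ c) {A : Set ℝ} (hA : Good c A) (S : ℕ → Prop)
    [DecidablePred S] (hS : ∀ w : List ℕ, PosW w → ∀ n, ∑ k ∈ (Finset.range n).filter (fun k => S (k + 1)),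
      c * |psi w (1 / ((k:ℝ) + 1)) - psi w (1 / ((k:ℝ) + 2))| ≤ c' * |psi w 0 - psi w 1|) :
    Good c' {t | t ∈ Irr ∧ S (dig t 0) ∧ gauss t ∈ A} := by
  intro w hw
  have hsub : psi w '' {t | t ∈ Irr ∧ S (dig t 0) ∧ gauss t ∈ A} ⊆
      ⋃ k : ℕ, (if S (k + 1) then psi (w ++ [k + 1]) '' A else ∅) := by
    rintro _ ⟨t, ⟨ht, hSt, hgt⟩, rfl⟩
    have h1 := one_le_dig_zero ht
    rw [mem_iUnion]
    refine ⟨dig t 0 - 1, ?_⟩
    have h2 : dig t 0 - 1 + 1 = dig t 0 := Nat.sub_add_cancel h1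
    rw [h2, if_pos hSt]
    refine ⟨gauss t, hgt, ?_⟩
    rw [psi_append, ← eq_branch ht]
  refine (measure_mono hsub).trans ((measure_iUnion_le _).trans ?_)
  rw [ENNReal.tsum_eq_iSup_nat]
  refine iSup_le fun n => ?_
  calc ∑ k ∈ Finset.range n, volume (if S (k + 1) then psi (w ++ [k + 1]) '' A else ∅)
      ≤ ∑ k ∈ Finset.range n, (if S (k + 1) then
        ENNReal.ofReal (c * |psi w (1 / ((k:ℝ) + 1)) - psi w (1 / ((k:ℝ) + 2))|) else 0) := by
        refine Finset.sum_le_sum fun k _ => ?_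
        split_ifs with h
        · have hw' : PosW (w ++ [k + 1]) := by
            intro a ha
            rcases List.mem_append.1 ha with h' | h'
            · exact hw a h'
            · simp at h'; omega
          refine (hA _ hw').trans ?_
          rw [psi_append_ends]
        · simp
    _ = ENNReal.ofReal (∑ k ∈ (Finset.range n).filter (fun k => S (k + 1)),
        c * |psi w (1 / ((k:ℝ) + 1)) - psi w (1 / ((k:ℝ) + 2))|) := by
        rw [ENNReal.ofReal_sum_of_nonneg (fun _ _ => by positivity), Finset.sum_filter]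
    _ ≤ _ := ENNReal.ofReal_le_ofReal (hS w hw n)

lemma psi_one_sub_le {w : List ℕ} (hw : PosW w) {t : ℝ} (ht : t ∈ Icc (0:ℝ) 1) :
    |psi w 1 - psi w t| ≤ (1 - t) * |psi w 0 - psi w 1| := by
  obtain ⟨q, q', hq, hq', hqq, h⟩ := psi_dist hw
  have h0 : (0:ℝ) ∈ Icc (0:ℝ) 1 := ⟨le_rfl, zero_le_one⟩
  have h1 : (1:ℝ) ∈ Icc (0:ℝ) 1 := ⟨zero_le_one, le_rfl⟩
  rw [h 1 h1 t ht, h 0 h0 1 h1]
  rw [abs_of_nonneg (by linarith [ht.2] : (0:ℝ) ≤ 1 - t)]
  have h2 : |(0:ℝ) - 1| = 1 := by norm_num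
  rw [h2, ← mul_div_assoc, mul_one]
  have h3 : 0 ≤ 1 - t := by linarith [ht.2]
  apply div_le_div_of_nonneg_left h3 (by positivity)
  have := mul_nonneg ht.1 hq'
  nlinarith

lemma psi_zero_sub_le {w : List ℕ} (hw : PosW w) {t : ℝ} (ht : t ∈ Icc (0:ℝ) 1) :
    |psi w 0 - psi w t| ≤ 2 * t * |psi w 0 - psi w 1| := by
  obtain ⟨q, q', hq, hq', hqq, h⟩ := psi_dist hw
  have h0 : (0:ℝ) ∈ Icc (0:ℝ) 1 := ⟨le_rfl, zero_le_one⟩
  have h1 : (1:ℝ) ∈ Icc (0:ℝ) 1 := ⟨zero_le_one, le_rfl⟩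
  rw [h 0 h0 t ht, h 0 h0 1 h1]
  have h2 : |(0:ℝ) - 1| = 1 := by norm_num
  have h3 : |(0:ℝ) - t| = t := by rw [zero_sub, abs_neg, abs_of_nonneg ht.1]
  rw [h2, h3, ← mul_div_assoc, mul_one]
  have h4 := mul_nonneg ht.1 hq'
  have hden1 : 0 < (q + 0 * q') * (q + t * q') := by
    apply mul_pos <;> linarith
  have hden2 : 0 < (q + 0 * q') * (q + 1 * q') := by
    apply mul_pos <;> linarith
  rw [div_le_div_iff₀ hden1 hden2]
  have h5 : t * ((q + 0 * q') * (q + 1 * q')) ≤ t * ((q + 0 * q') * (2 * (q + t * q'))) := by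
    apply mul_le_mul_of_nonneg_left _ ht.1
    apply mul_le_mul_of_nonneg_left _ (by linarith)
    linarith
  linarith

lemma good_pre {c : ℝ} (hc : 0 ≤ c) {A : Set ℝ} (hA : Good c A) :
    Good c {t | t ∈ Irr ∧ gauss t ∈ A} := by
  have h := good_step (c' := c) hc hA (fun _ => True) (fun w hw n => by
    rw [Finset.filter_true_of_mem (fun _ _ => trivial), ← Finset.mul_sum, sum_telescope hw]
    apply mul_le_mul_of_nonneg_left _ hc
    have ht : (1 / ((n:ℝ) + 1)) ∈ Icc (0:ℝ) 1 := ⟨by positivity, by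
      rw [div_le_one (by positivity)]; linarith [(Nat.cast_nonneg n : (0:ℝ) ≤ n)]⟩
    refine (psi_one_sub_le hw ht).trans ?_
    have : 0 ≤ (1 / ((n:ℝ) + 1)) * |psi w 0 - psi w 1| := by positivity
    linarith)
  simpa using h

lemma good_small {c : ℝ} (hc : 0 ≤ c) {A : Set ℝ} (hA : Good c A) {M : ℕ} (hM : 1 ≤ M) :
    Good ((1 - 1 / (M:ℝ)) * c) {t | t ∈ Irr ∧ dig t 0 < M ∧ gauss t ∈ A} := by
  refine good_step (c' := (1 - 1 / (M:ℝ)) * c) hc hA (fun a => a < M) (fun w hw n => ?_)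
  have hMR : (1:ℝ) ≤ M := by exact_mod_cast hM
  calc ∑ k ∈ (Finset.range n).filter (fun k => k + 1 < M),
        c * |psi w (1 / ((k:ℝ) + 1)) - psi w (1 / ((k:ℝ) + 2))|
      ≤ ∑ k ∈ Finset.range (M - 1),
        c * |psi w (1 / ((k:ℝ) + 1)) - psi w (1 / ((k:ℝ) + 2))| := by
        apply Finset.sum_le_sum_of_subset_of_nonneg
        · intro k hk
          simp only [Finset.mem_filter, Finset.mem_range] at hk ⊢
          omega
        · intro i _ _; positivity
    _ = c * |psi w 1 - psi w (1 / (((M - 1 : ℕ) : ℝ) + 1))| := by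
        rw [← Finset.mul_sum, sum_telescope hw]
    _ = c * |psi w 1 - psi w (1 / (M:ℝ))| := by
        congr 4
        rw [Nat.cast_sub hM]; simp
    _ ≤ c * ((1 - 1 / (M:ℝ)) * |psi w 0 - psi w 1|) := by
        apply mul_le_mul_of_nonneg_left _ hc
        apply psi_one_sub_le hw
        exact ⟨by positivity, by rw [div_le_one (by linarith)]; exact hMR⟩
    _ = _ := by ring

lemma good_large {K : ℕ} (hK : 1 ≤ K) : Good (2 / (K:ℝ)) {t | t ∈ Irr ∧ K ≤ dig t 0} := by
  intro w hw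
  have hKR : (1:ℝ) ≤ K := by exact_mod_cast hK
  have hK1 : (1 / (K:ℝ)) ∈ Icc (0:ℝ) 1 := ⟨by positivity, by rw [div_le_one (by linarith)]; exact hKR⟩
  have hsub : psi w '' {t | t ∈ Irr ∧ K ≤ dig t 0} ⊆ psi w '' Icc 0 (1 / (K:ℝ)) := by
    apply image_mono
    rintro t ⟨ht, hK'⟩
    refine ⟨ht.1.1.le, ?_⟩
    rw [dig_zero_eq] at hK'
    have h1 : (K:ℝ) ≤ 1 / t := (Nat.le_floor_iff (by have := ht.1.1; positivity)).1 hK'
    rw [le_div_iff₀ ht.1.1] at h1
    rw [le_div_iff₀ (by linarith)]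
    linarith
  refine (measure_mono hsub).trans ((psi_image_volume hw le_rfl hK1.1 hK1.2).trans ?_)
  apply ENNReal.ofReal_le_ofReal
  refine (psi_zero_sub_le hw hK1).trans (le_of_eq ?_)
  ring

/-- points whose first `L` digits are `< M` -/
def Bset (M L : ℕ) : Set ℝ := {t | t ∈ Irr ∧ ∀ i < L, dig t i < M}

lemma good_Bset {M : ℕ} (hM : 1 ≤ M) (L : ℕ) : Good ((1 - 1 / (M:ℝ))^L) (Bset M L) := by
  have hMR : (1:ℝ) ≤ M := by exact_mod_cast hM
  have h0 : 0 ≤ 1 - 1 / (M:ℝ) := by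
    have : 1 / (M:ℝ) ≤ 1 := by rw [div_le_one (by linarith)]; exact hMR
    linarith
  induction L with
  | zero =>
    have : Bset M 0 = Irr := by ext t; simp [Bset]
    rw [this, pow_zero]; exact good_Irr
  | succ L ih =>
    have h1 := good_small (pow_nonneg h0 L) ih hM
    have : Bset M (L + 1) = {t | t ∈ Irr ∧ dig t 0 < M ∧ gauss t ∈ Bset M L} := by
      ext t
      simp only [Bset, mem_ofPred_eq]
      constructor
      · rintro ⟨ht, h⟩
        refine ⟨ht, h 0 (Nat.succ_pos L), gauss_mem_Irr ht, fun i hi => ?_⟩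
        have := h (i + 1) (by omega)
        rwa [dig_succ] at this
      · rintro ⟨ht, h, -, h'⟩
        refine ⟨ht, fun i hi => ?_⟩
        rcases i with _ | i
        · exact h
        · rw [dig_succ]; exact h' i (by omega)
    rw [this, pow_succ']
    exact h1

lemma good_iter {c : ℝ} (hc : 0 ≤ c) {A : Set ℝ} (hA : Good c A) (n : ℕ) :
    Good c {t | t ∈ Irr ∧ gauss^[n + 1] t ∈ A} := by
  induction n with
  | zero => simpa using good_pre hc hA
  | succ n ih =>
    have h1 := good_pre hc ih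
    have : {t | t ∈ Irr ∧ gauss^[n + 1 + 1] t ∈ A} =
        {t | t ∈ Irr ∧ gauss t ∈ {t | t ∈ Irr ∧ gauss^[n + 1] t ∈ A}} := by
      ext t
      simp only [mem_ofPred_eq]
      constructor
      · rintro ⟨ht, h⟩
        exact ⟨ht, gauss_mem_Irr ht, by rwa [← Function.iterate_succ_apply]⟩
      · rintro ⟨ht, -, h⟩
        exact ⟨ht, by rwa [Function.iterate_succ_apply]⟩
    rw [this]; exact h1

lemma good_volume {c : ℝ} {A : Set ℝ} (hA : Good c A) : volume A ≤ ENNReal.ofReal c := by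
  have h := hA [] (by intro a ha; simp at ha)
  have h1 : psi [] '' A = A := by
    have : psi [] = id := by ext t; rfl
    rw [this, image_id]
  rw [h1] at h
  have h2 : |psi [] 0 - psi [] 1| = 1 := by simp [psi]
  rwa [h2, mul_one] at h

lemma volume_block (M L n : ℕ) (hM : 1 ≤ M) :
    volume {t | t ∈ Irr ∧ ∀ i < L, dig t (n + i) < M} ≤ ENNReal.ofReal ((1 - 1 / (M:ℝ))^L) := by
  have hMR : (1:ℝ) ≤ M := by exact_mod_cast hM
  have h0 : 0 ≤ 1 - 1 / (M:ℝ) := by
    have : 1 / (M:ℝ) ≤ 1 := by rw [div_le_one (by linarith)]; exact hMR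
    linarith
  have hg : Good ((1 - 1 / (M:ℝ))^L) {t | t ∈ Irr ∧ gauss^[n] t ∈ Bset M L} := by
    rcases n with _ | n
    · have := good_Bset hM L
      have e : {t | t ∈ Irr ∧ gauss^[0] t ∈ Bset M L} = Bset M L := by
        ext t; simp [Bset]
      rw [e]; exact this
    · exact good_iter (pow_nonneg h0 L) (good_Bset hM L) n
  refine (measure_mono ?_).trans (good_volume hg)
  rintro t ⟨ht, h⟩
  refine ⟨ht, iter_mem_Irr ht n, fun i hi => ?_⟩
  rw [← dig_add]
  exact h i hi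

lemma volume_large (K n : ℕ) (hK : 1 ≤ K) :
    volume {t | t ∈ Irr ∧ K ≤ dig t n} ≤ ENNReal.ofReal (2 / (K:ℝ)) := by
  have hg : Good (2 / (K:ℝ)) {t | t ∈ Irr ∧ gauss^[n] t ∈ {t | t ∈ Irr ∧ K ≤ dig t 0}} := by
    rcases n with _ | n
    · have := good_large hK
      have e : {t | t ∈ Irr ∧ gauss^[0] t ∈ {t | t ∈ Irr ∧ K ≤ dig t 0}} = {t | t ∈ Irr ∧ K ≤ dig t 0} := by
        ext t; simp
      rw [e]; exact this
    · exact good_iter (by positivity) (good_large hK) n
  refine (measure_mono ?_).trans (good_volume hg)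
  rintro t ⟨ht, h⟩
  exact ⟨ht, iter_mem_Irr ht n, h⟩

/-- The almost sure properties of the digits used below. -/
def Typical (x : ℝ) : Prop :=
  (∃ K : ℕ, ∀ i, dig x i + 1 ≤ 2^(K + 2 * i)) ∧
  (∃ J : ℕ, ∀ j ≥ J, ∃ i, j^3 ≤ i ∧ i + 1 < (j + 1)^3 ∧ j ≤ dig x i)

theorem ae_typical : ∀ᵐ x ∂(volume : Measure ℝ), x ∈ Irr → Typical x := by
  -- first Borel-Cantelli
  have h1 : ∀ᵐ x ∂(volume : Measure ℝ), ∀ᶠ i : ℕ in atTop, ¬ (x ∈ Irr ∧ 4^i ≤ dig x i) := by
    apply ae_eventually_notMem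
    have hle : ∀ i : ℕ, volume {x | x ∈ Irr ∧ 4^i ≤ dig x i} ≤ ENNReal.ofReal (2 * (1/4 : ℝ)^i) := by
      intro i
      refine (volume_large (4^i) i (Nat.one_le_pow _ _ (by norm_num))).trans (le_of_eq ?_)
      congr 1
      push_cast
      rw [div_pow, one_pow]
      ring
    refine ne_top_of_le_ne_top ?_ (ENNReal.tsum_le_tsum hle)
    rw [← ENNReal.ofReal_tsum_of_nonneg (fun i => by positivity)]
    · exact ENNReal.ofReal_ne_top
    · exact (summable_geometric_of_lt_one (by norm_num) (by norm_num)).mul_left 2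
  have h2 : ∀ᵐ x ∂(volume : Measure ℝ), ∀ᶠ j : ℕ in atTop,
      ¬ (x ∈ Irr ∧ ∀ i < 3 * (j+1)^2, dig x ((j+1)^3 + i) < j + 1) := by
    apply ae_eventually_notMem
    have hle : ∀ j : ℕ, volume {x | x ∈ Irr ∧ ∀ i < 3 * (j+1)^2, dig x ((j+1)^3 + i) < j + 1} ≤
        ENNReal.ofReal ((Real.exp (-1))^j) := by
      intro j
      refine (volume_block (j + 1) (3 * (j+1)^2) ((j+1)^3) (by omega)).trans ?_
      apply ENNReal.ofReal_le_ofReal
      have hj : (0:ℝ) < (j:ℝ) + 1 := by positivity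
      have h3 : 0 ≤ 1 - 1 / ((j + 1 : ℕ):ℝ) := by
        push_cast
        have : 1 / ((j:ℝ) + 1) ≤ 1 := by rw [div_le_one hj]; linarith [(Nat.cast_nonneg j : (0:ℝ) ≤ j)]
        linarith
      have h4 : 1 - 1 / ((j + 1 : ℕ):ℝ) ≤ Real.exp (-(1 / ((j:ℝ) + 1))) := by
        have := Real.add_one_le_exp (-(1 / ((j:ℝ) + 1)))
        push_cast
        linarith
      calc (1 - 1 / ((j + 1 : ℕ):ℝ))^(3 * (j+1)^2) ≤ (Real.exp (-(1 / ((j:ℝ) + 1))))^(3 * (j+1)^2) := by
            gcongr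
        _ = Real.exp (-(3 * ((j:ℝ) + 1))) := by
            rw [← Real.exp_nat_mul]
            congr 1
            push_cast
            field_simp
        _ ≤ Real.exp (-(j:ℝ)) := by
            apply Real.exp_le_exp.2
            linarith [(Nat.cast_nonneg j : (0:ℝ) ≤ j)]
        _ = (Real.exp (-1))^j := by
            rw [← Real.exp_nat_mul]; congr 1; ring
    refine ne_top_of_le_ne_top ?_ (ENNReal.tsum_le_tsum hle)
    rw [← ENNReal.ofReal_tsum_of_nonneg (fun i => by positivity)]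
    · exact ENNReal.ofReal_ne_top
    · exact summable_geometric_of_lt_one (by positivity) (by rw [Real.exp_lt_one_iff]; norm_num)
  filter_upwards [h1, h2] with x hx1 hx2 hxI
  constructor
  · obtain ⟨N, hN⟩ := eventually_atTop.1 hx1
    -- bound for the first `N` digits
    obtain ⟨K, hK⟩ : ∃ K : ℕ, ∀ i < N, dig x i + 1 ≤ 2^K := by
      refine ⟨∑ i ∈ Finset.range N, (dig x i + 1), fun i hi => ?_⟩
      refine Nat.lt_two_pow_self.le.trans (Nat.pow_le_pow_right (by norm_num) ?_)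
      exact Finset.single_le_sum (f := fun i => dig x i + 1) (fun _ _ => Nat.zero_le _)
        (Finset.mem_range.2 hi)
    refine ⟨K, fun i => ?_⟩
    by_cases hi : i < N
    · exact (hK i hi).trans (Nat.pow_le_pow_right (by norm_num) (by omega))
    · have h3 := hN i (by omega)
      have h4 : dig x i < 4^i := by
        by_contra hcon
        exact h3 ⟨hxI, by omega⟩
      calc dig x i + 1 ≤ 4^i := h4
        _ = 2^(2*i) := by rw [pow_mul]; norm_num
        _ ≤ 2^(K + 2 * i) := Nat.pow_le_pow_right (by norm_num) (by omega)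
  · obtain ⟨J, hJ⟩ := eventually_atTop.1 hx2
    refine ⟨J + 1, fun j hj => ?_⟩
    obtain ⟨j', rfl⟩ : ∃ j', j = j' + 1 := ⟨j - 1, by omega⟩
    have h3 := hJ j' (by omega)
    have h4 : ∃ i < 3 * (j'+1)^2, j' + 1 ≤ dig x ((j'+1)^3 + i) := by
      by_contra hcon
      push Not at hcon
      exact h3 ⟨hxI, hcon⟩
    obtain ⟨i, hi, hd⟩ := h4
    refine ⟨(j'+1)^3 + i, Nat.le_add_right _ _, ?_, hd⟩
    have : (j' + 1 + 1)^3 = (j'+1)^3 + 3 * (j'+1)^2 + 3 * (j'+1) + 1 := by ring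
    omega

end Pool.Agent.Lib.MP_034ad4_an
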