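import Pool.Agent.Lib.MP_034ad4_an.Exist
import Pool.Agent.Lib.MP_034ad4_an.Meas

/-!
Lower bound: a typical point has an asymptotic set of dimension at least `1/2`.
-/

open Set Filter MeasureTheory
open scoped Topology ENNReal NNReal

namespace Pool.Agent.Lib.MP_034ad4_an

/-- exponent of the number of choices at the `j`-th free position -/
def gg (j : ℕ) : ℕ := (j + 1)^8 - j^8

/-- number of choices at the `j`-th free position -/
def QQ (j : ℕ) : ℕ := 2^(gg j)

/-- product of the first `j` numbers of choices -/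
def PP (j : ℕ) : ℕ := 2^(j^8)

lemma gg_add (j : ℕ) : j^8 + gg j = (j + 1)^8 := by
  unfold gg
  have : j^8 ≤ (j + 1)^8 := Nat.pow_le_pow_left (Nat.le_succ j) 8
  omega

lemma PP_succ (j : ℕ) : PP (j + 1) = PP j * QQ j := by
  unfold PP QQ
  rw [← pow_add, gg_add]

lemma one_le_QQ (j : ℕ) : 1 ≤ QQ j := Nat.one_le_two_pow

lemma PP_pos (j : ℕ) : 0 < PP j := by unfold PP; positivity

/-- The data of free positions for `x`. -/
structure FreePos (x : ℝ) (J : ℕ) (sp : ℕ → ℕ) : Prop where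
  low : ∀ j, (j + J)^3 ≤ sp j
  up : ∀ j, sp j + 1 < (j + J + 1)^3
  big : ∀ j, j + J ≤ dig x (sp j)

variable {x : ℝ} {J : ℕ} {sp : ℕ → ℕ}

lemma FreePos.gap (h : FreePos x J sp) (j : ℕ) : sp j + 1 < sp (j + 1) := by
  have h1 := h.up j
  have h2 := h.low (j + 1)
  have h3 : j + 1 + J = j + J + 1 := by ring
  rw [h3] at h2
  omega

lemma FreePos.strictMono (h : FreePos x J sp) : StrictMono sp :=
  strictMono_nat_of_lt_succ fun j => by have := h.gap j; omega

/-- The Cantor set of points with free digits at the positions `sp j`. -/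
def YY (x : ℝ) (sp : ℕ → ℕ) : Set ℝ :=
  {y | y ∈ Irr ∧ (∀ n, (∀ j, sp j ≠ n) → dig y n = dig x n) ∧
    ∀ j, QQ j ≤ dig y (sp j) ∧ dig y (sp j) < 2 * QQ j}

lemma iter_le_inv_dig {y : ℝ} (hy : y ∈ Irr) (n : ℕ) : gauss^[n] y ≤ 1 / (dig y n : ℝ) := by
  have h1 := iter_mem_Irr hy n
  have h2 := eq_branch h1
  rw [dig_zero_iter] at h2
  have h3 := gauss_mem_Irr h1
  have h4 : (1:ℝ) ≤ dig y n := by exact_mod_cast one_le_dig hy n
  rw [h2]
  apply one_div_le_one_div_of_le (by linarith)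
  linarith [h3.1.1]

lemma word_congr {y z : ℝ} {n : ℕ} (h : ∀ i < n, dig y i = dig z i) : word y n = word z n := by
  unfold word
  congr 1
  ext i
  exact h i i.2

lemma YY_subset_asym (hx : x ∈ Irr) (h : FreePos x J sp) : YY x sp ⊆ asym x := by
  rintro y ⟨hy, hy1, hy2⟩
  refine ⟨⟨hy.1.1.le, hy.1.2⟩, ?_⟩
  rw [Metric.tendsto_atTop]
  intro ε hε
  -- at free positions the two orbits are both small
  obtain ⟨N, hN⟩ := exists_nat_gt (1 / ε)
  have hsmall : ∀ j ≥ N + 1, |gauss^[sp j] x - gauss^[sp j] y| < ε := by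
    intro j hj
    have hN0 : (0:ℝ) < N := lt_trans (by positivity) hN
    have hxd : (N:ℝ) < dig x (sp j) := by
      have := h.big j
      have h2 : N < dig x (sp j) := by omega
      exact_mod_cast h2
    have hyd : (N:ℝ) < dig y (sp j) := by
      have h1 := (hy2 j).1
      have h2 : N < QQ j := by
        unfold QQ
        have h3 : j ≤ gg j := by
          unfold gg
          have h4 : (j + 1)^8 = j^8 + (8*j^7+28*j^6+56*j^5+70*j^4+56*j^3+28*j^2+8*j+1) := by ring
          rw [h4]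
          have : j^8 + (8*j^7+28*j^6+56*j^5+70*j^4+56*j^3+28*j^2+8*j+1) - j^8 =
            8*j^7+28*j^6+56*j^5+70*j^4+56*j^3+28*j^2+8*j+1 := by omega
          rw [this]
          nlinarith [Nat.zero_le (j^7), Nat.zero_le (j^6), Nat.zero_le (j^5), Nat.zero_le (j^4), Nat.zero_le (j^3), Nat.zero_le (j^2)]
        calc N < j := by omega
          _ < 2^j := Nat.lt_two_pow_self
          _ ≤ 2^(gg j) := Nat.pow_le_pow_right (by norm_num) h3
      have h5 : N < dig y (sp j) := by omega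
      exact_mod_cast h5
    have hx1 := iter_le_inv_dig hx (sp j)
    have hy1' := iter_le_inv_dig hy (sp j)
    have hx0 := (iter_mem_Irr hx (sp j)).1.1
    have hy0 := (iter_mem_Irr hy (sp j)).1.1
    have hx2 : 1 / (dig x (sp j) : ℝ) < ε := by
      rw [div_lt_iff₀ (by linarith)]
      rw [div_lt_iff₀ hε] at hN
      nlinarith
    have hy2' : 1 / (dig y (sp j) : ℝ) < ε := by
      rw [div_lt_iff₀ (by linarith)]
      rw [div_lt_iff₀ hε] at hN
      nlinarith
    rw [abs_lt]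
    constructor <;> linarith
  refine ⟨sp (N + 1) + 1, fun n hn => ?_⟩
  -- next free position
  have hex : ∃ j, n ≤ sp j := ⟨n, h.strictMono.le_apply⟩
  classical
  set j := Nat.find hex with hj
  have hjn : n ≤ sp j := Nat.find_spec hex
  have hjN : N + 1 ≤ j := by
    by_contra hcon
    push Not at hcon
    have h1 : sp j < sp (N + 1) := h.strictMono hcon
    omega
  obtain ⟨m, hm⟩ : ∃ m, sp j = n + m := ⟨sp j - n, by omega⟩
  have hagree : ∀ i < m, dig (gauss^[n] x) i = dig (gauss^[n] y) i := by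
    intro i hi
    rw [← dig_add, ← dig_add]
    refine (hy1 (n + i) fun l hl => ?_).symm
    rcases lt_or_ge l j with h1 | h1
    · have := Nat.find_min hex h1
      omega
    · have := h.strictMono.monotone h1
      omega
  have hxn := iter_mem_Irr hx n
  have hyn := iter_mem_Irr hy n
  have e1 := eq_psi_word hxn m
  have e2 := eq_psi_word hyn m
  rw [← word_congr hagree] at e2
  have h3 : |gauss^[n] x - gauss^[n] y| ≤ |gauss^[sp j] x - gauss^[sp j] y| := by
    have h4 := psi_nonexp (posW_word hxn m) (Irr_subset_Icc (iter_mem_Irr hxn m))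
      (Irr_subset_Icc (iter_mem_Irr hyn m))
    rw [← e1, ← e2] at h4
    rw [← Function.iterate_add_apply, ← Function.iterate_add_apply] at h4
    have h5 : m + n = sp j := by omega
    rwa [h5] at h4
  rw [Real.dist_eq, sub_zero, abs_abs]
  exact h3.trans_lt (hsmall j hjN)

/-- the coding map -/
noncomputable def ff (sp : ℕ → ℕ) (y : ℝ) : ℝ := ∑' j, ((dig y (sp j) : ℝ) - QQ j) / PP (j + 1)

lemma two_pow_PP (j k : ℕ) : (2:ℝ)^k * PP j ≤ PP (j + k) := by
  have h1 : 2^k * PP j ≤ PP (j + k) := by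
    unfold PP
    rw [← pow_add]
    apply Nat.pow_le_pow_right (by norm_num)
    induction k with
    | zero => simp
    | succ k ih =>
      have h2 : (j + k)^8 + 1 ≤ (j + (k + 1))^8 := by
        have : (j + k)^8 < (j + (k + 1))^8 := Nat.pow_lt_pow_left (by omega) (by norm_num)
        omega
      omega
  exact_mod_cast h1

lemma term_bound {y z : ℝ} (hy : y ∈ YY x sp) (hz : z ∈ YY x sp) (j k : ℕ) :
    ‖((dig y (sp (j + k)) : ℝ) - QQ (j + k)) / PP (j + k + 1) -
      ((dig z (sp (j + k)) : ℝ) - QQ (j + k)) / PP (j + k + 1)‖ ≤ (1 / (PP j : ℝ)) * (1/2)^k := by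
  obtain ⟨-, -, hy2⟩ := hy
  obtain ⟨-, -, hz2⟩ := hz
  have hP : (0:ℝ) < PP (j + k) := by exact_mod_cast PP_pos _
  have hPj : (0:ℝ) < PP j := by exact_mod_cast PP_pos _
  have hQ : (1:ℝ) ≤ QQ (j + k) := by exact_mod_cast one_le_QQ _
  have e1 : (PP (j + k + 1) : ℝ) = PP (j + k) * QQ (j + k) := by rw [PP_succ]; push_cast; ring
  have y1 : (QQ (j + k) : ℝ) ≤ dig y (sp (j + k)) := by exact_mod_cast (hy2 _).1
  have y2 : (dig y (sp (j + k)) : ℝ) < 2 * QQ (j + k) := by exact_mod_cast (hy2 _).2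
  have z1 : (QQ (j + k) : ℝ) ≤ dig z (sp (j + k)) := by exact_mod_cast (hz2 _).1
  have z2 : (dig z (sp (j + k)) : ℝ) < 2 * QQ (j + k) := by exact_mod_cast (hz2 _).2
  rw [← sub_div, e1, Real.norm_eq_abs, abs_div, abs_of_pos (mul_pos hP (by linarith) : (0:ℝ) < PP (j + k) * QQ (j + k))]
  have h1 : |(dig y (sp (j + k)) : ℝ) - QQ (j + k) - ((dig z (sp (j + k)) : ℝ) - QQ (j + k))| ≤ QQ (j + k) := by
    rw [abs_le]; constructor <;> linarith
  calc |(dig y (sp (j + k)) : ℝ) - QQ (j + k) - ((dig z (sp (j + k)) : ℝ) - QQ (j + k))| / (PP (j + k) * QQ (j + k))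
      ≤ QQ (j + k) / (PP (j + k) * QQ (j + k)) := by gcongr
    _ = 1 / PP (j + k) := by field_simp
    _ ≤ 1 / ((2:ℝ)^k * PP j) := one_div_le_one_div_of_le (by positivity) (two_pow_PP j k)
    _ = _ := by
      rw [one_div_pow]
      field_simp

lemma term_summable {y : ℝ} (hy : y ∈ YY x sp) :
    Summable (fun j => ((dig y (sp j) : ℝ) - QQ j) / PP (j + 1)) := by
  obtain ⟨-, -, hy2⟩ := hy
  have hg : Summable (fun j : ℕ => (1/2 : ℝ)^j) := summable_geometric_of_lt_one (by norm_num) (by norm_num)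
  refine Summable.of_nonneg_of_le (fun j => ?_) (fun j => ?_) hg
  · have y1 : (QQ j : ℝ) ≤ dig y (sp j) := by exact_mod_cast (hy2 _).1
    apply div_nonneg (by linarith) (by positivity)
  · have y2 : (dig y (sp j) : ℝ) < 2 * QQ j := by exact_mod_cast (hy2 _).2
    have hP : (0:ℝ) < PP j := by exact_mod_cast PP_pos _
    have hQ : (1:ℝ) ≤ QQ j := by exact_mod_cast one_le_QQ _
    have e1 : (PP (j + 1) : ℝ) = PP j * QQ j := by rw [PP_succ]; push_cast; ring
    rw [e1]
    calc ((dig y (sp j) : ℝ) - QQ j) / (PP j * QQ j) ≤ QQ j / (PP j * QQ j) := by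
          gcongr; linarith
      _ = 1 / PP j := by field_simp
      _ ≤ 1 / (2:ℝ)^j := by
          apply one_div_le_one_div_of_le (by positivity)
          have h1 := two_pow_PP 0 j
          have h2 : PP 0 = 1 := rfl
          rw [h2, zero_add] at h1
          simpa using h1
      _ = (1/2)^j := by rw [one_div_pow]

lemma ff_close {y z : ℝ} (hy : y ∈ YY x sp) (hz : z ∈ YY x sp) (j : ℕ)
    (h : ∀ i < j, dig y (sp i) = dig z (sp i)) : |ff sp y - ff sp z| ≤ 2 / PP j := by
  unfold ff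
  rw [← (term_summable hy).tsum_sub (term_summable hz)]
  have hsum := (term_summable hy).sub (term_summable hz)
  rw [← hsum.sum_add_tsum_nat_add j]
  have h0 : ∑ i ∈ Finset.range j, (((dig y (sp i) : ℝ) - QQ i) / PP (i + 1) -
      ((dig z (sp i) : ℝ) - QQ i) / PP (i + 1)) = 0 := by
    refine Finset.sum_eq_zero fun i hi => ?_
    rw [h i (Finset.mem_range.1 hi), sub_self]
  rw [h0, zero_add]
  have hgeo : HasSum (fun k : ℕ => (1 / (PP j : ℝ)) * (1/2)^k) ((1 / (PP j : ℝ)) * 2) :=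
    hasSum_geometric_two.mul_left _
  have h1 := tsum_of_norm_bounded hgeo (f := fun k => ((dig y (sp (k + j)) : ℝ) - QQ (k + j)) / PP (k + j + 1) -
      ((dig z (sp (k + j)) : ℝ) - QQ (k + j)) / PP (k + j + 1)) (fun k => by
        rw [add_comm k j]; exact term_bound hy hz j k)
  rw [Real.norm_eq_abs] at h1
  refine h1.trans (le_of_eq ?_)
  ring

/-- surjectivity of the coding map -/
lemma ff_surj (hx : x ∈ Irr) (h : FreePos x J sp) : Ico (0:ℝ) 1 ⊆ ff sp '' (YY x sp) := by
  classical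
  intro z hz
  set m : ℕ → ℕ := fun j => ⌊z * PP j⌋₊
  have hm1 : ∀ j, QQ j * m j ≤ m (j + 1) := by
    intro j
    apply Nat.le_floor
    have h1 : (m j : ℝ) ≤ z * PP j := Nat.floor_le (mul_nonneg hz.1 (by positivity))
    rw [PP_succ]
    push_cast
    have hQ : (0:ℝ) ≤ QQ j := by positivity
    nlinarith
  have hm2 : ∀ j, m (j + 1) < QQ j * (m j + 1) := by
    intro j
    rw [Nat.floor_lt (mul_nonneg hz.1 (by positivity))]
    have h1 : z * PP j < (m j : ℝ) + 1 := Nat.lt_floor_add_one _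
    rw [PP_succ]
    push_cast
    have hQ : (0:ℝ) < QQ j := by exact_mod_cast one_le_QQ j
    nlinarith
  set c : ℕ → ℕ := fun j => m (j + 1) - QQ j * m j
  have hc : ∀ j, c j < QQ j := by
    intro j
    have h1 := hm1 j
    have h2 := hm2 j
    have h3 : QQ j * (m j + 1) = QQ j * m j + QQ j := by ring
    simp only [c]
    omega
  set A : ℕ → ℕ := fun n => if h : ∃ j, sp j = n then QQ h.choose + c h.choose else dig x n
  have hAsp : ∀ j, A (sp j) = QQ j + c j := by
    intro j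
    have hex : ∃ i, sp i = sp j := ⟨j, rfl⟩
    have hch : hex.choose = j := h.strictMono.injective hex.choose_spec
    simp only [A, dif_pos hex, hch]
  have hAne : ∀ n, (∀ j, sp j ≠ n) → A n = dig x n := by
    intro n hn
    have : ¬ ∃ j, sp j = n := fun ⟨j, hj⟩ => hn j hj
    simp only [A, dif_neg this]
  have hA1 : ∀ n, 1 ≤ A n := by
    intro n
    by_cases hn : ∃ j, sp j = n
    · obtain ⟨j, rfl⟩ := hn
      rw [hAsp]
      have := one_le_QQ j
      omega
    · rw [hAne n (fun j hj => hn ⟨j, hj⟩)]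
      exact one_le_dig hx n
  obtain ⟨y, hy, hyd⟩ := exists_digits A hA1
  refine ⟨y, ⟨hy, fun n hn => by rw [hyd, hAne n hn], fun j => ?_⟩, ?_⟩
  · rw [hyd, hAsp]
    have := hc j
    omega
  · unfold ff
    have hterm : ∀ j, ((dig y (sp j) : ℝ) - QQ j) / PP (j + 1) =
        (m (j + 1) : ℝ) / PP (j + 1) - (m j : ℝ) / PP j := by
      intro j
      rw [hyd, hAsp]
      have h1 : ((QQ j + c j : ℕ) : ℝ) - QQ j = (m (j + 1) : ℝ) - QQ j * m j := by
        have h2 : c j + QQ j * m j = m (j + 1) := Nat.sub_add_cancel (hm1 j)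
        have h3 : (c j : ℝ) + QQ j * m j = m (j + 1) := by exact_mod_cast h2
        push_cast
        linarith
      rw [h1]
      have hP : (0:ℝ) < PP j := by exact_mod_cast PP_pos _
      have hQ : (0:ℝ) < QQ j := by exact_mod_cast one_le_QQ j
      have e1 : (PP (j + 1) : ℝ) = PP j * QQ j := by rw [PP_succ]; push_cast; ring
      rw [e1]
      field_simp
    have hnn : ∀ j, 0 ≤ (m (j + 1) : ℝ) / PP (j + 1) - (m j : ℝ) / PP j := by
      intro j
      rw [← hterm, hyd, hAsp]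
      push_cast
      have : (QQ j : ℝ) + c j - QQ j = c j := by ring
      rw [this]; positivity
    simp_rw [hterm]
    have hs : HasSum (fun j => (m (j + 1) : ℝ) / PP (j + 1) - (m j : ℝ) / PP j) z := by
      rw [hasSum_iff_tendsto_nat_of_nonneg hnn]
      have h1 : ∀ n, ∑ i ∈ Finset.range n, ((m (i + 1) : ℝ) / PP (i + 1) - (m i : ℝ) / PP i) =
          (m n : ℝ) / PP n := by
        intro n
        rw [Finset.sum_range_sub (fun i => (m i : ℝ) / PP i)]
        have h2 : m 0 = 0 := by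
          simp only [m]
          rw [Nat.floor_eq_zero]
          have : PP 0 = 1 := rfl
          rw [this]; simpa using hz.2
        rw [h2]; simp
      simp_rw [h1]
      rw [Metric.tendsto_atTop]
      intro ε hε
      obtain ⟨N, hN⟩ := exists_nat_gt (1 / ε)
      refine ⟨N, fun n hn => ?_⟩
      have hP : (0:ℝ) < PP n := by exact_mod_cast PP_pos _
      have h3 : (m n : ℝ) ≤ z * PP n := Nat.floor_le (mul_nonneg hz.1 (by positivity))
      have h4 : z * PP n < (m n : ℝ) + 1 := Nat.lt_floor_add_one _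
      have h5 : (N:ℝ) < PP n := by
        have h6 : N < PP n := by
          unfold PP
          calc N ≤ n := hn
            _ ≤ n^8 := Nat.le_self_pow (by norm_num) n
            _ < 2^(n^8) := Nat.lt_two_pow_self
        exact_mod_cast h6
      rw [Real.dist_eq, abs_lt]
      have h7 : 1 < ε * PP n := by
        rw [div_lt_iff₀ hε] at hN
        nlinarith
      constructor
      · have : z < (m n : ℝ) / PP n + ε := by
          rw [← sub_lt_iff_lt_add, lt_div_iff₀ hP]
          nlinarith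
        linarith
      · have : (m n : ℝ) / PP n ≤ z := by
          rw [div_le_iff₀ hP]; exact h3
        linarith
    exact hs.tsum_eq

/-- product of digits up to a free position -/
lemma prod_dig_le (h : FreePos x J sp) {K : ℕ} (hK : ∀ i, dig x i + 1 ≤ 2^(K + 2 * i))
    {y : ℝ} (hy : y ∈ YY x sp) (j : ℕ) :
    ∏ i ∈ Finset.range (sp j), (dig y i + 1) ≤ 2^((K + 2 * sp j) * sp j + j^8 + j) := by
  obtain ⟨hyI, hy1, hy2⟩ := hy
  induction j with
  | zero =>
    have h1 : ∏ i ∈ Finset.range (sp 0), (dig y i + 1) ≤ (2^(K + 2 * sp 0))^(Finset.range (sp 0)).card := by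
      apply Finset.prod_le_pow_card
      intro i hi
      have hi' := Finset.mem_range.1 hi
      rw [hy1 i (fun l hl => by
        have := h.strictMono.monotone (Nat.zero_le l)
        omega)]
      exact (hK i).trans (Nat.pow_le_pow_right (by norm_num) (by omega))
    rw [Finset.card_range, ← pow_mul] at h1
    exact h1.trans (Nat.pow_le_pow_right (by norm_num) (by omega))
  | succ j ih =>
    have hlt := h.gap j
    have hsplit : ∏ i ∈ Finset.range (sp (j + 1)), (dig y i + 1) =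
        (∏ i ∈ Finset.range (sp j), (dig y i + 1)) * (dig y (sp j) + 1) *
          ∏ i ∈ Finset.Ico (sp j + 1) (sp (j + 1)), (dig y i + 1) := by
      rw [← Finset.prod_range_succ, Finset.prod_range_mul_prod_Ico _ (by omega)]
    rw [hsplit]
    have h2 : dig y (sp j) + 1 ≤ 2^(gg j + 1) := by
      have := (hy2 j).2
      rw [pow_succ]
      unfold QQ at this
      omega
    have h3 : ∏ i ∈ Finset.Ico (sp j + 1) (sp (j + 1)), (dig y i + 1) ≤
        (2^(K + 2 * sp (j + 1)))^(Finset.Ico (sp j + 1) (sp (j + 1))).card := by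
      apply Finset.prod_le_pow_card
      intro i hi
      have hi' := Finset.mem_Ico.1 hi
      rw [hy1 i (fun l hl => by
        rcases lt_or_ge l (j + 1) with h4 | h4
        · have := h.strictMono.monotone (Nat.lt_succ_iff.1 h4)
          omega
        · have := h.strictMono.monotone h4
          omega)]
      exact (hK i).trans (Nat.pow_le_pow_right (by norm_num) (by omega))
    rw [Nat.card_Ico, ← pow_mul] at h3
    calc (∏ i ∈ Finset.range (sp j), (dig y i + 1)) * (dig y (sp j) + 1) *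
          ∏ i ∈ Finset.Ico (sp j + 1) (sp (j + 1)), (dig y i + 1)
        ≤ 2^((K + 2 * sp j) * sp j + j^8 + j) * 2^(gg j + 1) *
          2^((K + 2 * sp (j + 1)) * (sp (j + 1) - (sp j + 1))) := by
          gcongr
      _ = 2^(((K + 2 * sp j) * sp j + j^8 + j) + (gg j + 1) +
          (K + 2 * sp (j + 1)) * (sp (j + 1) - (sp j + 1))) := by
          rw [← pow_add, ← pow_add]
      _ ≤ 2^((K + 2 * sp (j + 1)) * sp (j + 1) + (j + 1)^8 + (j + 1)) := by
          apply Nat.pow_le_pow_right (by norm_num)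
          have h5 := gg_add j
          obtain ⟨r, hr⟩ : ∃ r, sp (j + 1) = sp j + 1 + r := ⟨sp (j + 1) - (sp j + 1), by omega⟩
          have h6 : sp (j + 1) - (sp j + 1) = r := by omega
          rw [h6, hr]
          nlinarith [Nat.zero_le (K * r), Nat.zero_le (sp j * r), Nat.zero_le (r * r), Nat.zero_le (K)]

/-- separation of points of the Cantor set -/
lemma YY_sep (h : FreePos x J sp) {K : ℕ} (hK : ∀ i, dig x i + 1 ≤ 2^(K + 2 * i))
    {y z : ℝ} (hy : y ∈ YY x sp) (hz : z ∈ YY x sp) (j : ℕ)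
    (hag : ∀ i < j, dig y (sp i) = dig z (sp i)) (hne : dig y (sp j) ≠ dig z (sp j)) :
    1 / (2:ℝ)^(2 * ((K + 2 * sp j) * sp j + (j + 1)^8 + j) + 3) ≤ |y - z| := by
  have hyI := hy.1
  have hzI := hz.1
  have hagree : ∀ i < sp j, dig y i = dig z i := by
    intro i hi
    by_cases hex : ∃ l, sp l = i
    · obtain ⟨l, rfl⟩ := hex
      exact hag l (h.strictMono.lt_iff_lt.1 hi)
    · rw [hy.2.1 i (fun l hl => hex ⟨l, hl⟩), hz.2.1 i (fun l hl => hex ⟨l, hl⟩)]
  set n := sp j
  have e1 := eq_psi_word hyI n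
  have e2 := eq_psi_word hzI n
  rw [← word_congr hagree] at e2
  set u := gauss^[n] y
  set v := gauss^[n] z
  have huI : u ∈ Irr := iter_mem_Irr hyI n
  have hvI : v ∈ Irr := iter_mem_Irr hzI n
  have h1 := psi_colip (posW_word hyI n) (Irr_subset_Icc huI) (Irr_subset_Icc hvI)
  rw [← e1, ← e2] at h1
  -- product
  have hprod : ((word y n).map (fun a : ℕ => 1 / ((a:ℝ) + 1)^2)).prod =
      1 / ((∏ i ∈ Finset.range n, (dig y i + 1) : ℕ) : ℝ)^2 := by
    unfold word
    rw [List.map_ofFn, List.prod_ofFn]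
    push_cast
    rw [← Fin.prod_univ_eq_prod_range (fun i => (dig y i : ℝ) + 1) n, ← Finset.prod_pow,
      one_div, ← Finset.prod_inv_distrib]
    exact Finset.prod_congr rfl fun i _ => by simp
  have hpb := prod_dig_le h hK hy j
  have hpbR : ((∏ i ∈ Finset.range n, (dig y i + 1) : ℕ) : ℝ) ≤ (2:ℝ)^((K + 2 * sp j) * sp j + j^8 + j) := by
    exact_mod_cast hpb
  have hppos : (0:ℝ) < ((∏ i ∈ Finset.range n, (dig y i + 1) : ℕ) : ℝ) := by
    have : 0 < ∏ i ∈ Finset.range n, (dig y i + 1) := Finset.prod_pos fun i _ => Nat.succ_pos _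
    exact_mod_cast this
  -- the difference of `u` and `v`
  set b : ℝ := (dig y n : ℝ) with hb
  set b' : ℝ := (dig z n : ℝ) with hb'
  have eu : 1 / u = b + gauss u := by
    conv_lhs => rw [eq_branch huI]
    rw [one_div_one_div]
    rfl
  have ev : 1 / v = b' + gauss v := by
    conv_lhs => rw [eq_branch hvI]
    rw [one_div_one_div]
    rfl
  have hguI := gauss_mem_Irr huI
  have hgvI := gauss_mem_Irr hvI
  have hbb : 1 ≤ |b - b'| := by
    have h3 : (dig y n : ℤ) ≠ dig z n := by exact_mod_cast hne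
    have h4 : 1 ≤ |(dig y n : ℤ) - dig z n| := Int.one_le_abs (sub_ne_zero.2 h3)
    have h5 : ((1:ℤ):ℝ) ≤ ((|(dig y n : ℤ) - dig z n| : ℤ) : ℝ) := by exact_mod_cast h4
    push_cast at h5
    exact h5
  -- next digit
  have hnext : dig y (n + 1) = dig z (n + 1) := by
    have hnot : ∀ l, sp l ≠ n + 1 := by
      intro l hl
      rcases lt_or_ge l (j + 1) with h4 | h4
      · have := h.strictMono.monotone (Nat.lt_succ_iff.1 h4)
        omega
      · have := h.strictMono.monotone h4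
        have := h.gap j
        omega
    rw [hy.2.1 _ hnot, hz.2.1 _ hnot]
  have hhalf : |gauss u - gauss v| ≤ 1/2 := by
    have hd1 : dig (gauss u) 0 = dig y (n + 1) := by
      have : gauss u = gauss^[n+1] y := (Function.iterate_succ_apply' _ _ _).symm
      rw [this]; rfl
    have hd2 : dig (gauss v) 0 = dig z (n + 1) := by
      have : gauss v = gauss^[n+1] z := (Function.iterate_succ_apply' _ _ _).symm
      rw [this]; rfl
    have h5 := eq_branch hguI
    have h6 := eq_branch hgvI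
    rw [hd1] at h5
    rw [hd2, ← hnext] at h6
    set a : ℝ := (dig y (n + 1) : ℝ) with hadef
    have ha : 1 ≤ a := by
      have := one_le_dig hyI (n + 1)
      rw [hadef]
      exact_mod_cast this
    have hggu := (gauss_mem_Irr hguI).1
    have hggv := (gauss_mem_Irr hgvI).1
    have l1 : gauss u ≤ 1 / a := by
      rw [h5]; apply one_div_le_one_div_of_le (by linarith); linarith [hggu.1]
    have l2 : 1 / (a + 1) ≤ gauss u := by
      rw [h5]; apply one_div_le_one_div_of_le (by linarith [hggu.1]); linarith [hggu.2]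
    have l3 : gauss v ≤ 1 / a := by
      rw [h6]; apply one_div_le_one_div_of_le (by linarith); linarith [hggv.1]
    have l4 : 1 / (a + 1) ≤ gauss v := by
      rw [h6]; apply one_div_le_one_div_of_le (by linarith [hggv.1]); linarith [hggv.2]
    have l5 : 1 / a - 1 / (a + 1) ≤ 1/2 := by
      have : 1 / a - 1 / (a + 1) = 1 / (a * (a + 1)) := by field_simp; ring
      rw [this, div_le_div_iff₀ (by positivity) (by norm_num)]
      nlinarith
    rw [abs_le]; constructor <;> linarith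
  have huv : 1 / (8 * (QQ j : ℝ)^2) ≤ |u - v| := by
    have hupos := huI.1.1
    have hvpos := hvI.1.1
    have e : u - v = -((1 / u - 1 / v) / ((1 / u) * (1 / v))) := by
      field_simp; ring
    have h7 : 1/2 ≤ |1 / u - 1 / v| := by
      have e3 : b - b' = (1 / u - 1 / v) - (gauss u - gauss v) := by rw [eu, ev]; ring
      rw [e3] at hbb
      have := abs_sub (1 / u - 1 / v) (gauss u - gauss v)
      linarith
    have hbQ : b + 1 ≤ 2 * QQ j := by
      have := (hy.2.2 j).2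
      have h8 : dig y n + 1 ≤ 2 * QQ j := this
      rw [hb]; exact_mod_cast h8
    have hbQ' : b' + 1 ≤ 2 * QQ j := by
      have := (hz.2.2 j).2
      have h8 : dig z n + 1 ≤ 2 * QQ j := this
      rw [hb']; exact_mod_cast h8
    have h8 : 1 / u ≤ 2 * QQ j := by rw [eu]; linarith [hguI.1.2]
    have h9 : 1 / v ≤ 2 * QQ j := by rw [ev]; linarith [hgvI.1.2]
    rw [e, abs_neg, abs_div, abs_of_pos (by positivity : 0 < (1 / u) * (1 / v))]
    have h10 : (1 / u) * (1 / v) ≤ (2 * QQ j) * (2 * QQ j) := by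
      apply mul_le_mul h8 h9 (by positivity) (by positivity)
    calc 1 / (8 * (QQ j : ℝ)^2) = (1/2) / ((2 * QQ j) * (2 * QQ j)) := by
          have : (0:ℝ) < QQ j := by exact_mod_cast one_le_QQ j
          field_simp; norm_num
      _ ≤ |1 / u - 1 / v| / ((1 / u) * (1 / v)) := by gcongr
  rw [hprod] at h1
  refine le_trans ?_ h1
  have hQpos : (0:ℝ) < QQ j := by exact_mod_cast one_le_QQ j
  have hgoal : 1 / (2:ℝ)^(2 * ((K + 2 * sp j) * sp j + (j + 1)^8 + j) + 3) =
      1 / ((2:ℝ)^((K + 2 * sp j) * sp j + j^8 + j))^2 * (1 / (8 * (QQ j : ℝ)^2)) := by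
    have e4 : (QQ j : ℝ) = 2^(gg j) := by unfold QQ; push_cast; ring
    have e5 := gg_add j
    rw [e4, ← e5, div_mul_div_comm, one_mul]
    congr 1
    rw [show (8:ℝ) = 2^3 by norm_num, ← pow_mul, ← pow_mul, ← pow_add, ← pow_add]
    congr 1
    ring
  rw [hgoal]
  apply mul_le_mul _ huv (by positivity) (by positivity)
  apply one_div_le_one_div_of_le (by positivity)
  gcongr

lemma pow_le_seven (j k : ℕ) (hk : k ≤ 7) : (j:ℝ)^k ≤ (j:ℝ)^7 + 1 := by
  rcases Nat.eq_zero_or_pos j with h | h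
  · subst h
    rcases Nat.eq_zero_or_pos k with h' | h'
    · subst h'; simp
    · rw [Nat.cast_zero, zero_pow h'.ne']; positivity
  · have h1 : (1:ℝ) ≤ j := by exact_mod_cast h
    have := pow_le_pow_right₀ h1 hk
    linarith

lemma exists_const {σ : ℝ} (hσ0 : 0 < σ) (hσ : σ < 1/2) (K J : ℕ) : ∃ L : ℝ, 0 ≤ L ∧
    ∀ j n : ℕ, n ≤ (j + J + 1)^3 →
      σ * ((2 * ((K + 2 * n) * n + (j + 1)^8 + j) + 3 : ℕ) : ℝ) ≤ (j:ℝ)^8 + L := by
  set D : ℝ := 2 * ((K:ℝ) + 2) * ((J:ℝ) + 2)^6 + 2 * 255 + 5 with hD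
  have hD0 : 0 < D := by positivity
  set η : ℝ := 1 - 2 * σ with hη
  have hη0 : 0 < η := by linarith
  set B : ℝ := σ * D / η with hB
  have hB0 : 0 < B := by positivity
  clear_value D η B
  refine ⟨σ * D + σ * D * B^7, by positivity, fun j n hn => ?_⟩
  have hj0 : (0:ℝ) ≤ j := Nat.cast_nonneg j
  have h7 : (0:ℝ) ≤ (j:ℝ)^7 := by positivity
  -- (K + 2n) n ≤ (K+2) (J+2)^6 (j^7+1)
  have h1 : (((K + 2 * n) * n : ℕ) : ℝ) ≤ ((K:ℝ) + 2) * ((J:ℝ) + 2)^6 * ((j:ℝ)^7 + 1) := by
    have h2 : (K + 2 * n) * n ≤ (K + 2) * n^2 := by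
      rcases Nat.eq_zero_or_pos n with h | h
      · subst h; simp
      · nlinarith [Nat.mul_le_mul_left (K * n) h]
    have h3 : n^2 ≤ ((j + J + 1)^3)^2 := Nat.pow_le_pow_left hn 2
    have h4 : (K + 2 * n) * n ≤ (K + 2) * (j + J + 1)^6 := by
      refine h2.trans ?_
      have : ((j + J + 1)^3)^2 = (j + J + 1)^6 := by rw [← pow_mul]
      rw [this] at h3
      exact Nat.mul_le_mul_left _ h3
    have h5 : ((j:ℝ) + J + 1)^6 ≤ ((J:ℝ) + 2)^6 * ((j:ℝ)^7 + 1) := by
      rcases Nat.eq_zero_or_pos j with h | h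
      · subst h
        have : ((0:ℕ):ℝ) + J + 1 ≤ (J:ℝ) + 2 := by push_cast; linarith
        have h6 : (((0:ℕ):ℝ) + J + 1)^6 ≤ ((J:ℝ) + 2)^6 := by gcongr
        have h8 : ((0:ℕ):ℝ)^7 + 1 = 1 := by norm_num
        rw [h8, mul_one]; exact h6
      · have hj1 : (1:ℝ) ≤ j := by exact_mod_cast h
        have : (j:ℝ) + J + 1 ≤ ((J:ℝ) + 2) * j := by
          have : (J:ℝ) ≤ J * j := by nlinarith [(Nat.cast_nonneg J : (0:ℝ) ≤ J)]
          linarith
        calc ((j:ℝ) + J + 1)^6 ≤ (((J:ℝ) + 2) * j)^6 := by gcongr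
          _ = ((J:ℝ) + 2)^6 * (j:ℝ)^6 := by rw [mul_pow]
          _ ≤ ((J:ℝ) + 2)^6 * ((j:ℝ)^7 + 1) := by
              have := pow_le_seven j 6 (by norm_num)
              gcongr
    have h6 : (((K + 2 * n) * n : ℕ) : ℝ) ≤ (((K + 2) * (j + J + 1)^6 : ℕ) : ℝ) := by exact_mod_cast h4
    refine h6.trans ?_
    push_cast
    calc ((K:ℝ) + 2) * ((j:ℝ) + J + 1)^6 ≤ ((K:ℝ) + 2) * (((J:ℝ) + 2)^6 * ((j:ℝ)^7 + 1)) := by gcongr
      _ = _ := by ring
  have h2 : ((j:ℝ) + 1)^8 ≤ (j:ℝ)^8 + 255 * ((j:ℝ)^7 + 1) := by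
    have e : ((j:ℝ) + 1)^8 = (j:ℝ)^8 + (8*(j:ℝ)^7+28*(j:ℝ)^6+56*(j:ℝ)^5+70*(j:ℝ)^4+56*(j:ℝ)^3+28*(j:ℝ)^2+8*(j:ℝ)^1+(j:ℝ)^0) := by ring
    rw [e]
    have p6 := pow_le_seven j 6 (by norm_num)
    have p5 := pow_le_seven j 5 (by norm_num)
    have p4 := pow_le_seven j 4 (by norm_num)
    have p3 := pow_le_seven j 3 (by norm_num)
    have p2 := pow_le_seven j 2 (by norm_num)
    have p1 := pow_le_seven j 1 (by norm_num)
    have p0 := pow_le_seven j 0 (by norm_num)
    linarith
  have h3 : ((2 * ((K + 2 * n) * n + (j + 1)^8 + j) + 3 : ℕ) : ℝ) ≤ 2 * (j:ℝ)^8 + D * ((j:ℝ)^7 + 1) := by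
    have p1 := pow_le_seven j 1 (by norm_num)
    rw [pow_one] at p1
    have e : ((2 * ((K + 2 * n) * n + (j + 1)^8 + j) + 3 : ℕ) : ℝ) =
        2 * (((K + 2 * n) * n : ℕ) : ℝ) + 2 * ((j:ℝ) + 1)^8 + 2 * j + 3 := by push_cast; ring
    rw [e, hD]
    nlinarith
  have h4 : σ * D * (j:ℝ)^7 ≤ η * (j:ℝ)^8 + σ * D * B^7 := by
    have e : σ * D = η * B := by rw [hB]; field_simp
    rcases le_total B j with h | h
    · have : η * B * (j:ℝ)^7 ≤ η * (j:ℝ)^8 := by
        have : (j:ℝ)^8 = j * (j:ℝ)^7 := by ring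
        rw [this]
        have h5 : B * (j:ℝ)^7 ≤ j * (j:ℝ)^7 := by gcongr
        nlinarith
      rw [e]
      have : 0 ≤ η * B * B^7 := by positivity
      linarith
    · have h5 : (j:ℝ)^7 ≤ B^7 := by gcongr
      have h6 : 0 ≤ η * (j:ℝ)^8 := by positivity
      have h8 : σ * D * (j:ℝ)^7 ≤ σ * D * B^7 := by gcongr
      linarith
  calc σ * ((2 * ((K + 2 * n) * n + (j + 1)^8 + j) + 3 : ℕ) : ℝ) ≤ σ * (2 * (j:ℝ)^8 + D * ((j:ℝ)^7 + 1)) := by
        gcongr
    _ = 2 * σ * (j:ℝ)^8 + σ * D * (j:ℝ)^7 + σ * D := by ring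
    _ ≤ 2 * σ * (j:ℝ)^8 + (η * (j:ℝ)^8 + σ * D * B^7) + σ * D := by linarith
    _ = (j:ℝ)^8 + (σ * D + σ * D * B^7) := by
        have h9 : η * (j:ℝ)^8 = (j:ℝ)^8 - 2 * σ * (j:ℝ)^8 := by rw [hη]; ring
        rw [h9]; ring

theorem le_dimH_YY (hx : x ∈ Irr) (h : FreePos x J sp) {K : ℕ} (hK : ∀ i, dig x i + 1 ≤ 2^(K + 2 * i))
    {σ : ℝ≥0} (hσ0 : 0 < σ) (hσ : (σ:ℝ) < 1/2) : (σ : ℝ≥0∞) ≤ dimH (YY x sp) := by
  classical
  have hσ0' : (0:ℝ) < σ := by exact_mod_cast hσ0
  obtain ⟨L, hL0, hL⟩ := exists_const hσ0' hσ K J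
  set C : ℝ≥0 := Real.toNNReal (2 * (2:ℝ)^L)
  have hCr : (C:ℝ) = 2 * (2:ℝ)^L := Real.coe_toNNReal _ (by positivity)
  have hreal : ∀ y ∈ YY x sp, ∀ z ∈ YY x sp, |ff sp y - ff sp z| ≤ C * |y - z|^(σ:ℝ) := by
    intro y hy z hz
    by_cases hall : ∀ j, dig y (sp j) = dig z (sp j)
    · have : ff sp y = ff sp z := by
        unfold ff
        exact tsum_congr fun j => by rw [hall j]
      rw [this, sub_self, abs_zero]
      positivity
    · push Not at hall
      set j := Nat.find hall with hj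
      have hjne : dig y (sp j) ≠ dig z (sp j) := Nat.find_spec hall
      have hag : ∀ i < j, dig y (sp i) = dig z (sp i) := by
        intro i hi
        have := Nat.find_min hall hi
        push Not at this
        exact this
      have h1 := ff_close hy hz j hag
      have h2 := YY_sep h hK hy hz j hag hjne
      have h3 := hL j (sp j) (by have := h.up j; omega)
      set e : ℕ := 2 * ((K + 2 * sp j) * sp j + (j + 1)^8 + j) + 3
      have h4 : (2:ℝ)^(-((j:ℝ)^8 + L)) ≤ |y - z|^(σ:ℝ) := by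
        have h5 : (1 / (2:ℝ)^e)^(σ:ℝ) ≤ |y - z|^(σ:ℝ) := Real.rpow_le_rpow (by positivity) h2 hσ0'.le
        refine le_trans ?_ h5
        have h6 : (1 / (2:ℝ)^e)^(σ:ℝ) = (2:ℝ)^(-(σ * (e:ℝ))) := by
          rw [one_div, ← Real.rpow_natCast, ← Real.rpow_neg (by norm_num), ← Real.rpow_mul (by norm_num)]
          congr 1
          ring
        rw [h6]
        apply Real.rpow_le_rpow_of_exponent_le (by norm_num)
        linarith
      calc |ff sp y - ff sp z| ≤ 2 / PP j := h1
        _ = 2 * (2:ℝ)^L * (2:ℝ)^(-((j:ℝ)^8 + L)) := by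
            have e1 : (PP j : ℝ) = (2:ℝ)^((j:ℝ)^8) := by
              unfold PP
              push_cast
              rw [← Real.rpow_natCast]
              push_cast
              rfl
            rw [e1, mul_assoc, ← Real.rpow_add (by norm_num), div_eq_mul_inv, ← Real.rpow_neg (by norm_num)]
            congr 2
            ring
        _ ≤ C * |y - z|^(σ:ℝ) := by
            rw [hCr]; gcongr
  have hhol : HolderOnWith C σ (ff sp) (YY x sp) := by
    intro y hy z hz
    have h1 := hreal y hy z hz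
    rw [edist_dist, edist_dist, Real.dist_eq, Real.dist_eq]
    rw [ENNReal.ofReal_rpow_of_nonneg (abs_nonneg _) hσ0'.le]
    have h2 : (C : ℝ≥0∞) = ENNReal.ofReal (C:ℝ) := by simp
    rw [h2, ← ENNReal.ofReal_mul (NNReal.coe_nonneg C)]
    exact ENNReal.ofReal_le_ofReal h1
  have h1 := hhol.dimH_image_le hσ0
  have h2 : dimH (Ico (0:ℝ) 1) = 1 := by
    have : (interior (Ico (0:ℝ) 1)).Nonempty := by
      rw [interior_Ico]; exact ⟨1/2, by norm_num, by norm_num⟩
    rw [Real.dimH_of_nonempty_interior this]; simp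
  have h3 : (1:ℝ≥0∞) ≤ dimH (YY x sp) / σ := by
    rw [← h2]
    exact (dimH_mono (ff_surj hx h)).trans h1
  rw [ENNReal.le_div_iff_mul_le (Or.inl (by exact_mod_cast hσ0.ne')) (Or.inl ENNReal.coe_ne_top), one_mul] at h3
  exact h3

theorem le_dimH_asym {x : ℝ} (hx : x ∈ Irr) (ht : Typical x) : ((1/2 : ℝ≥0) : ℝ≥0∞) ≤ dimH (asym x) := by
  obtain ⟨⟨K, hK⟩, J, hJ⟩ := ht
  have hch : ∀ j : ℕ, ∃ i, (j + J)^3 ≤ i ∧ i + 1 < (j + J + 1)^3 ∧ j + J ≤ dig x i := fun j =>
    hJ (j + J) (Nat.le_add_left J j)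
  choose sp h1 h2 h3 using hch
  have hfp : FreePos x J sp := ⟨h1, h2, h3⟩
  apply le_of_forall_lt
  intro c hc
  have hctop : c ≠ ∞ := ne_top_of_lt hc
  lift c to ℝ≥0 using hctop
  have hc' : c < 1/2 := by exact_mod_cast hc
  obtain ⟨σ, hσ1, hσ2⟩ := exists_between hc'
  have hσ2' : (σ:ℝ) < 1/2 := by
    have : ((σ:ℝ≥0):ℝ) < ((1/2 : ℝ≥0) : ℝ) := by exact_mod_cast hσ2
    simpa using this
  have h4 := le_dimH_YY hx hfp hK (lt_of_le_of_lt (zero_le) hσ1) hσ2'
  calc (c:ℝ≥0∞) < σ := by exact_mod_cast hσ1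
    _ ≤ dimH (YY x sp) := h4
    _ ≤ dimH (asym x) := dimH_mono (YY_subset_asym hx hfp)

end Pool.Agent.Lib.MP_034ad4_an
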