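import Pool.Agent.Lib.MP_034ad4_an.Basic

/-!
Upper bound: the asymptotic set of a point with unbounded digits has dimension at most `1/2`.
-/

open Set Filter MeasureTheory Metric
open scoped Topology ENNReal NNReal

namespace Pool.Agent.Lib.MP_034ad4_an

lemma digit_eq_of_close {u v : ℝ} (hu : u ∈ Irr) (hv : v ∈ Irr) {M : ℕ}
    (h1 : |u - v| < 1 / (2 * ((M:ℝ) + 1)^2 + 2))
    (h2 : |gauss u - gauss v| < 1 / (2 * ((M:ℝ) + 1)^2 + 2)) (ha : dig u 0 ≤ M) :
    dig v 0 = dig u 0 := by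
  set ε := 1 / (2 * ((M:ℝ) + 1)^2 + 2) with hε
  have hM : (0:ℝ) ≤ M := Nat.cast_nonneg M
  have hden : 0 < 2 * ((M:ℝ) + 1)^2 + 2 := by positivity
  have hεpos : 0 < ε := by positivity
  set a : ℝ := (dig u 0 : ℝ) with hadef
  set b : ℝ := (dig v 0 : ℝ) with hbdef
  have haM : a ≤ M := by rw [hadef]; exact_mod_cast ha
  have hgu := gauss_mem_Irr hu
  have hgv := gauss_mem_Irr hv
  have eu : 1 / u = a + gauss u := by
    conv_lhs => rw [eq_branch hu]
    rw [one_div_one_div]
  have ev : 1 / v = b + gauss v := by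
    conv_lhs => rw [eq_branch hv]
    rw [one_div_one_div]
  have hupos := hu.1.1
  have hvpos := hv.1.1
  have hu1 : 1 / u ≤ M + 1 := by rw [eu]; linarith [hgu.1.2]
  have hu2 : 1 / ((M:ℝ) + 1) ≤ u := by
    rw [div_le_iff₀ hupos] at hu1
    rw [div_le_iff₀ (by linarith)]
    linarith
  have hv2 : 1 / (2 * ((M:ℝ) + 1)) ≤ v := by
    have h3 : u - v < ε := (le_abs_self _).trans_lt h1
    have h4 : ε ≤ 1 / (2 * ((M:ℝ) + 1)) := by
      rw [hε]
      apply one_div_le_one_div_of_le (by positivity)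
      nlinarith
    have h5 : 1 / ((M:ℝ) + 1) = 1 / (2 * ((M:ℝ) + 1)) + 1 / (2 * ((M:ℝ) + 1)) := by
      field_simp; norm_num
    linarith
  have hv3 : 1 / v ≤ 2 * ((M:ℝ) + 1) := by
    rw [div_le_iff₀ (by positivity)] at hv2
    rw [div_le_iff₀ hvpos]
    linarith
  have h6 : |1 / u - 1 / v| ≤ ε * (2 * ((M:ℝ) + 1)^2) := by
    have e : 1 / u - 1 / v = -((u - v) * ((1 / u) * (1 / v))) := by
      field_simp; ring
    rw [e, abs_neg, abs_mul, abs_of_pos (by positivity : 0 < (1 / u) * (1 / v))]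
    have h7 : (1 / u) * (1 / v) ≤ (M + 1) * (2 * ((M:ℝ) + 1)) := by
      apply mul_le_mul hu1 hv3 (by positivity) (by positivity)
    calc |u - v| * ((1 / u) * (1 / v)) ≤ ε * ((M + 1) * (2 * ((M:ℝ) + 1))) := by
          apply mul_le_mul h1.le h7 (by positivity) hεpos.le
      _ = _ := by ring
  have h8 : |b - a| < 1 := by
    have e : b - a = -(1 / u - 1 / v) + (gauss u - gauss v) := by rw [eu, ev]; ring
    rw [e]
    calc |-(1 / u - 1 / v) + (gauss u - gauss v)| ≤ |-(1 / u - 1 / v)| + |gauss u - gauss v| := abs_add_le _ _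
      _ < ε * (2 * ((M:ℝ) + 1)^2) + ε := by rw [abs_neg]; linarith
      _ < ε * (2 * ((M:ℝ) + 1)^2 + 2) := by nlinarith
      _ = 1 := by rw [hε]; field_simp
  have h9 : |((dig v 0 : ℤ) : ℝ) - ((dig u 0 : ℤ) : ℝ)| < 1 := by
    rw [hbdef, hadef] at h8
    exact_mod_cast h8
  have h10 : |(dig v 0 : ℤ) - (dig u 0 : ℤ)| < 1 := by exact_mod_cast h9
  have h11 := abs_lt.1 h10
  omega

/-- Allowed digits at a position, for points asymptotic to `x`. -/
def Allowed (x : ℝ) (M : ℕ) (i : ℕ) (a : ℕ) : Prop :=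
  (dig x i ≤ M → a = dig x i) ∧ (M < dig x i → M < a)

lemma allowed_of_close {x y : ℝ} (hx : x ∈ Irr) (hy : y ∈ Irr)
    (h : Tendsto (fun n : ℕ => |gauss^[n] x - gauss^[n] y|) atTop (𝓝 0)) (M : ℕ) :
    ∃ n0, ∀ n ≥ n0, Allowed x M n (dig y n) := by
  have hε : 0 < 1 / (2 * ((M:ℝ) + 1)^2 + 2) := by positivity
  obtain ⟨n0, hn0⟩ := eventually_atTop.1 (h.eventually (gt_mem_nhds hε))
  refine ⟨n0, fun n hn => ?_⟩
  have h1 := hn0 n hn
  have h2 := hn0 (n + 1) (by omega)
  rw [Function.iterate_succ_apply', Function.iterate_succ_apply'] at h2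
  have hxn := iter_mem_Irr hx n
  have hyn := iter_mem_Irr hy n
  constructor
  · intro hd
    exact digit_eq_of_close hxn hyn h1 h2 hd
  · intro hd
    by_contra hcon
    push Not at hcon
    rw [abs_sub_comm] at h1 h2
    have : dig x n = dig y n := digit_eq_of_close hyn hxn h1 h2 hcon
    omega

/-- points all of whose digits are allowed from position `p` on -/
def Tail (x : ℝ) (M p : ℕ) : Set ℝ := {t | t ∈ Irr ∧ ∀ i, Allowed x M (p + i) (dig t i)}

lemma asym_subset {x : ℝ} (hx : x ∈ Irr) (M : ℕ) :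
    asym x ∩ Irr ⊆ ⋃ n0 : ℕ, ⋃ w : {w : List ℕ // PosW w}, psi w '' Tail x M n0 := by
  rintro y ⟨⟨hy1, hy2⟩, hy⟩
  obtain ⟨n0, hn0⟩ := allowed_of_close hx hy hy2 M
  rw [mem_iUnion]
  refine ⟨n0, ?_⟩
  rw [mem_iUnion]
  refine ⟨⟨word y n0, posW_word hy n0⟩, gauss^[n0] y, ⟨iter_mem_Irr hy n0, fun i => ?_⟩, ?_⟩
  · rw [← dig_add]
    exact hn0 _ (by omega)
  · exact (eq_psi_word hy n0).symm

lemma dimH_psi_image_le {w : List ℕ} (hw : PosW w) {A : Set ℝ} (hA : A ⊆ Icc 0 1) :
    dimH (psi w '' A) ≤ dimH A := by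
  have h : LipschitzOnWith 1 (psi w) A := by
    refine LipschitzOnWith.of_dist_le_mul fun s hs t ht => ?_
    rw [Real.dist_eq, Real.dist_eq, NNReal.coe_one, one_mul]
    exact psi_nonexp hw (hA hs) (hA ht)
  exact h.dimH_image_le

lemma tsum_pi_prod (n : ℕ) (h : Fin n → ℕ → ℝ≥0∞) :
    ∑' u : Fin n → ℕ, ∏ i, h i (u i) = ∏ i, ∑' a, h i a := by
  induction n with
  | zero => simp
  | succ n ih =>
    rw [← (Fin.consEquiv (fun _ : Fin (n + 1) => ℕ)).tsum_eq, ENNReal.tsum_prod', Fin.prod_univ_succ]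
    rw [← ENNReal.tsum_mul_right]
    refine tsum_congr fun a => ?_
    rw [← ih (fun i => h i.succ), ← ENNReal.tsum_mul_left]
    refine tsum_congr fun u => ?_
    rw [Fin.prod_univ_succ]
    simp [Fin.consEquiv]

/-- size weights -/
noncomputable def del (a : ℕ) : ℝ≥0∞ := ENNReal.ofReal (1 / (a:ℝ)^2)

lemma ediam_psi_le {w : List ℕ} (hw : PosW w) :
    ediam (psi w '' Icc 0 1) ≤ (w.map del).prod := by
  have hprod : (w.map del).prod = ENNReal.ofReal ((w.map (fun a : ℕ => 1 / (a:ℝ)^2)).prod) := by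
    induction w with
    | nil => simp
    | cons a w ih =>
      simp only [List.map_cons, List.prod_cons]
      rw [ih hw.cons.2, del, ENNReal.ofReal_mul (by positivity)]
  rw [hprod, ediam_le_iff]
  rintro _ ⟨s, hs, rfl⟩ _ ⟨t, ht, rfl⟩
  rw [edist_dist, Real.dist_eq]
  apply ENNReal.ofReal_le_ofReal
  refine (psi_lip hw hs ht).trans ?_
  have h1 : 0 ≤ (w.map (fun a : ℕ => 1 / (a:ℝ)^2)).prod := by
    apply List.prod_nonneg
    intro x hx
    obtain ⟨b, _, rfl⟩ := List.mem_map.1 hx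
    positivity
  have h2 : |s - t| ≤ 1 := by
    rw [abs_le]; constructor <;> linarith [hs.1, hs.2, ht.1, ht.2]
  exact mul_le_of_le_one_right h1 h2

lemma del_le_one {a : ℕ} (ha : 1 ≤ a) : del a ≤ 1 := by
  rw [del, ← ENNReal.ofReal_one]
  apply ENNReal.ofReal_le_ofReal
  have : (1:ℝ) ≤ a := by exact_mod_cast ha
  rw [div_le_one (by positivity)]
  nlinarith

lemma del_le_fourth {a : ℕ} (ha : 2 ≤ a) : del a ≤ 2⁻¹ := by
  rw [del]
  have h2 : (2⁻¹ : ℝ≥0∞) = ENNReal.ofReal (1/2) := by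
    rw [ENNReal.ofReal_div_of_pos (by norm_num)]; simp
  rw [h2]
  apply ENNReal.ofReal_le_ofReal
  have : (2:ℝ) ≤ a := by exact_mod_cast ha
  apply one_div_le_one_div_of_le (by norm_num)
  nlinarith

/-- number of large digits in a window -/
noncomputable def cnt (x : ℝ) (M p n : ℕ) : ℕ := ((Finset.range n).filter (fun i => M < dig x (p + i))).card

lemma cnt_tendsto {x : ℝ} {M : ℕ} (h : ∃ᶠ n in atTop, M < dig x n) (p : ℕ) :
    Tendsto (cnt x M p) atTop atTop := by
  have hmono : Monotone (cnt x M p) := by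
    intro m n hmn
    exact Finset.card_le_card (Finset.filter_subset_filter _ (Finset.range_mono hmn))
  apply tendsto_atTop_atTop_of_monotone hmono
  intro b
  induction b with
  | zero => exact ⟨0, Nat.zero_le _⟩
  | succ b ih =>
    obtain ⟨a, ha⟩ := ih
    obtain ⟨m, hm, hm2⟩ := frequently_atTop.1 h (p + a)
    refine ⟨m - p + 1, ?_⟩
    have hlt : cnt x M p a < cnt x M p (m - p + 1) := by
      apply Finset.card_lt_card
      refine Finset.ssubset_iff_subset_ne.2 ⟨Finset.filter_subset_filter _ (Finset.range_mono (by omega)), ?_⟩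
      intro heq
      have h1 : m - p ∈ (Finset.range (m - p + 1)).filter (fun i => M < dig x (p + i)) := by
        simp only [Finset.mem_filter, Finset.mem_range]
        refine ⟨by omega, ?_⟩
        have : p + (m - p) = m := by omega
        rw [this]; exact hm2
      rw [← heq] at h1
      simp only [Finset.mem_filter, Finset.mem_range] at h1
      omega
    omega

theorem dimH_Tail_le {x : ℝ} (hx : x ∈ Irr) {s : ℝ≥0} (hs : 1/2 < s) {M : ℕ} (hM : 1 ≤ M)
    (hsum : ∑' a : ℕ, (if M < a then (del a)^(s:ℝ) else 0) ≤ 2⁻¹)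
    (hfreq : ∃ᶠ n in atTop, M < dig x n) (p : ℕ) : dimH (Tail x M p) ≤ s := by
  classical
  have hs0 : (0:ℝ) < s := by
    have : (1/2 : ℝ≥0) < s := hs
    have h2 : ((1/2 : ℝ≥0) : ℝ) < s := by exact_mod_cast this
    have h3 : (0:ℝ) ≤ ((1/2 : ℝ≥0) : ℝ) := NNReal.coe_nonneg _
    linarith
  apply dimH_le_of_hausdorffMeasure_ne_top
  -- covers
  set t : ∀ n : ℕ, (Fin n → ℕ) → Set ℝ := fun n u =>
    if (∀ i : Fin n, Allowed x M (p + i) (u i)) then psi (List.ofFn u) '' Icc 0 1 else ∅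
  set r : ℕ → ℝ≥0∞ := fun n => (2⁻¹)^(cnt x M p n)
  have hr : Tendsto r atTop (𝓝 0) := by
    have h1 : Tendsto (fun k : ℕ => (2⁻¹ : ℝ≥0∞)^k) atTop (𝓝 0) :=
      ENNReal.tendsto_pow_atTop_nhds_zero_of_lt_one (by norm_num)
    exact h1.comp (cnt_tendsto hfreq p)
  have hpos : ∀ n (u : Fin n → ℕ), (∀ i : Fin n, Allowed x M (p + i) (u i)) → ∀ i, 1 ≤ u i := by
    intro n u hu i
    by_cases h : dig x (p + i) ≤ M
    · rw [(hu i).1 h]; exact one_le_dig hx _
    · push Not at h
      have := (hu i).2 h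
      omega
  have hdiam : ∀ n (u : Fin n → ℕ), (∀ i : Fin n, Allowed x M (p + i) (u i)) →
      ediam (t n u) ≤ ∏ i, del (u i) := by
    intro n u hu
    simp only [t, if_pos hu]
    have hw : PosW (List.ofFn u) := by
      intro a ha
      rw [List.mem_ofFn] at ha
      obtain ⟨i, rfl⟩ := ha
      exact hpos n u hu i
    refine (ediam_psi_le hw).trans (le_of_eq ?_)
    rw [List.map_ofFn, List.prod_ofFn]
    rfl
  have hcntprod : ∀ n, (2⁻¹ : ℝ≥0∞)^(cnt x M p n) = ∏ i : Fin n, (if M < dig x (p + i) then (2⁻¹ : ℝ≥0∞) else 1) := by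
    intro n
    rw [Fin.prod_univ_eq_prod_range (fun i => if M < dig x (p + i) then (2⁻¹ : ℝ≥0∞) else 1) n]
    rw [Finset.prod_ite, Finset.prod_const, Finset.prod_const_one, mul_one]
    rfl
  have ht : ∀ᶠ n in atTop, ∀ i, ediam (t n i) ≤ r n := by
    refine Eventually.of_forall fun n u => ?_
    by_cases hu : ∀ i : Fin n, Allowed x M (p + i) (u i)
    · refine (hdiam n u hu).trans ?_
      simp only [r]
      rw [hcntprod]
      refine Finset.prod_le_prod' fun i _ => ?_
      split_ifs with h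
      · exact del_le_fourth (by have := (hu i).2 h; omega)
      · exact del_le_one (hpos n u hu i)
    · simp only [t, if_neg hu]
      simp
  have hst : ∀ᶠ n in atTop, Tail x M p ⊆ ⋃ i, t n i := by
    refine Eventually.of_forall fun n y hy => ?_
    rw [mem_iUnion]
    refine ⟨fun i => dig y i, ?_⟩
    have hall : ∀ i : Fin n, Allowed x M (p + i) (dig y i) := fun i => hy.2 i
    simp only [t, if_pos hall]
    exact ⟨gauss^[n] y, Irr_subset_Icc (iter_mem_Irr hy.1 n), (eq_psi_word hy.1 n).symm⟩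
  have hbound := Measure.hausdorffMeasure_le_liminf_tsum (s:ℝ) (Tail x M p) r hr t ht hst
  have hle1 : ∀ n, ∑' u, ediam (t n u) ^ (s:ℝ) ≤ 1 := by
    intro n
    calc ∑' u, ediam (t n u) ^ (s:ℝ)
        ≤ ∑' u : Fin n → ℕ, ∏ i : Fin n, (if Allowed x M (p + i) (u i) then (del (u i))^(s:ℝ) else 0) := by
          refine ENNReal.tsum_le_tsum fun u => ?_
          by_cases hu : ∀ i : Fin n, Allowed x M (p + i) (u i)
          · have h1 := ENNReal.rpow_le_rpow (hdiam n u hu) hs0.le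
            refine h1.trans (le_of_eq ?_)
            rw [← ENNReal.prod_rpow_of_nonneg hs0.le]
            exact Finset.prod_congr rfl fun i _ => by rw [if_pos (hu i)]
          · simp only [t, if_neg hu]
            simp [hs0]
      _ = ∏ i : Fin n, ∑' a, (if Allowed x M (p + i) a then (del a)^(s:ℝ) else 0) :=
          tsum_pi_prod n (fun i a => if Allowed x M (p + i) a then (del a)^(s:ℝ) else 0)
      _ ≤ ∏ i : Fin n, 1 := by
          refine Finset.prod_le_prod' fun i _ => ?_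
          by_cases h : dig x (p + i) ≤ M
          · have h2 : ∀ a, (if Allowed x M (p + i) a then (del a)^(s:ℝ) else 0) =
                if a = dig x (p + i) then (del (dig x (p + i)))^(s:ℝ) else 0 := by
              intro a
              by_cases ha : a = dig x (p + i)
              · have : Allowed x M (p + i) a := ⟨fun _ => ha, fun h' => by omega⟩
                rw [if_pos this, if_pos ha, ha]
              · have : ¬ Allowed x M (p + i) a := fun h' => ha (h'.1 h)
                rw [if_neg this, if_neg ha]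
            simp_rw [h2]
            rw [tsum_ite_eq]
            exact ENNReal.rpow_le_one (del_le_one (one_le_dig hx _)) hs0.le
          · push Not at h
            have h2 : ∀ a, (if Allowed x M (p + i) a then (del a)^(s:ℝ) else 0) =
                if M < a then (del a)^(s:ℝ) else 0 := by
              intro a
              by_cases ha : M < a
              · have : Allowed x M (p + i) a := ⟨fun h' => by omega, fun _ => ha⟩
                rw [if_pos this, if_pos ha]
              · have : ¬ Allowed x M (p + i) a := fun h' => ha (h'.2 h)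
                rw [if_neg this, if_neg ha]
            simp_rw [h2]
            exact hsum.trans (by simp)
      _ = 1 := by simp
  have : liminf (fun n => ∑' i, ediam (t n i) ^ (s:ℝ)) atTop ≤ 1 := by
    calc liminf (fun n => ∑' i, ediam (t n i) ^ (s:ℝ)) atTop ≤ liminf (fun _ : ℕ => (1:ℝ≥0∞)) atTop :=
          liminf_le_liminf (Eventually.of_forall hle1)
      _ = 1 := by simp
  exact ne_top_of_le_ne_top ENNReal.one_ne_top (hbound.trans this)

lemma del_rpow (s : ℝ≥0) (a : ℕ) :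
    (del a)^(s:ℝ) = ENNReal.ofReal (1 / (a:ℝ)^(2 * (s:ℝ))) := by
  have hs0 : (0:ℝ) ≤ s := s.2
  rw [del, ENNReal.ofReal_rpow_of_nonneg (by positivity) hs0]
  congr 1
  rw [Real.div_rpow zero_le_one (by positivity), Real.one_rpow, Real.rpow_mul (by positivity),
    Real.rpow_two]

lemma del_summable {s : ℝ≥0} (hs : 1/2 < s) : ∑' a : ℕ, (del a)^(s:ℝ) ≠ ∞ := by
  have hs' : (1:ℝ) < 2 * s := by
    have h2 : ((1/2 : ℝ≥0) : ℝ) < s := by exact_mod_cast hs
    push_cast at h2
    linarith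
  have h1 : ∑' a : ℕ, (del a)^(s:ℝ) = ∑' a : ℕ, ENNReal.ofReal (1 / (a:ℝ)^(2 * (s:ℝ))) :=
    tsum_congr fun a => del_rpow s a
  rw [h1, ← ENNReal.ofReal_tsum_of_nonneg (fun a => by positivity)
    (Real.summable_one_div_nat_rpow.2 hs')]
  exact ENNReal.ofReal_ne_top

lemma aux_tail0 (f : ℕ → ℝ≥0∞) (N : ℕ) : 
    ∑' a : ℕ, (if N < a then f a else 0) ≤ ∑' k, f (k + (N+1)) := by
  rw [← Summable.sum_add_tsum_nat_add' (f := fun a => if N < a then f a else 0) (k := N + 1) ENNReal.summable]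
  rw [Finset.sum_eq_zero, zero_add]
  · refine ENNReal.tsum_le_tsum fun k => ?_
    split_ifs
    · exact le_rfl
    · exact zero_le
  · intro i hi
    rw [if_neg]
    have := Finset.mem_range.1 hi
    omega

lemma aux_tail (f : ℕ → ℝ≥0∞) (hf : ∑' a, f a ≠ ∞) : ∃ M : ℕ, 1 ≤ M ∧
    ∑' a : ℕ, (if M < a then f a else 0) ≤ 2⁻¹ := by
  have h2 := ENNReal.tendsto_sum_nat_add f hf
  have h0 : (0:ℝ≥0∞) < 2⁻¹ := ENNReal.inv_pos.2 (by simp)
  have h3 : ∀ᶠ i in atTop, ∑' k, f (k + i) < 2⁻¹ :=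
    h2.eventually (gt_mem_nhds h0)
  obtain ⟨N, hN⟩ := eventually_atTop.1 h3
  have h4 := (hN (N + 1 + 1) (by omega)).le
  exact ⟨N + 1, Nat.succ_le_succ (Nat.zero_le N), (aux_tail0 f (N+1)).trans h4⟩

lemma exists_M {s : ℝ≥0} (hs : 1/2 < s) : ∃ M : ℕ, 1 ≤ M ∧
    ∑' a : ℕ, (if M < a then (del a)^(s:ℝ) else 0) ≤ 2⁻¹ :=
  aux_tail (fun a => (del a)^(s:ℝ)) (del_summable hs)

/-- Upper bound. -/
theorem dimH_asym_le {x : ℝ} (hx : x ∈ Irr) (h : ∀ M, ∃ᶠ n in atTop, M < dig x n) :
    dimH (asym x) ≤ (1/2 : ℝ≥0) := by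
  apply le_of_forall_gt
  intro c hc
  by_cases hctop : c = ∞
  · rw [hctop]; exact Real.dimH_lt_top _
  lift c to ℝ≥0 using hctop
  have hc' : 1/2 < c := by exact_mod_cast hc
  obtain ⟨s, hs1, hs2⟩ := exists_between hc'
  obtain ⟨M, hM1, hM2⟩ := exists_M hs1
  refine lt_of_le_of_lt ?_ (show (s : ℝ≥0∞) < c by exact_mod_cast hs2)
  have hsplit : asym x ⊆ (asym x ∩ Irr) ∪ (Set.range (fun q : ℚ => (q:ℝ))) := by
    intro y hy
    by_cases hirr : Irrational y
    · left
      refine ⟨hy, ⟨lt_of_le_of_ne hy.1.1 (Ne.symm hirr.ne_zero), hy.1.2⟩, hirr⟩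
    · right
      rw [Irrational, not_not] at hirr
      exact hirr
  have h1 : dimH (asym x ∩ Irr) ≤ s := by
    refine (dimH_mono (asym_subset hx M)).trans ?_
    rw [dimH_iUnion]
    refine iSup_le fun n0 => ?_
    rw [dimH_iUnion]
    refine iSup_le fun w => ?_
    refine (dimH_psi_image_le w.2 (fun t ht => Irr_subset_Icc ht.1)).trans ?_
    exact dimH_Tail_le hx hs1 hM1 hM2 (h M) n0
  calc dimH (asym x) ≤ dimH ((asym x ∩ Irr) ∪ (Set.range (fun q : ℚ => (q:ℝ)))) := dimH_mono hsplit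
    _ = max (dimH (asym x ∩ Irr)) (dimH (Set.range (fun q : ℚ => (q:ℝ)))) := dimH_union _ _
    _ ≤ s := by
      rw [dimH_countable (countable_range _)]
      exact max_le h1 (by simp)

end Pool.Agent.Lib.MP_034ad4_an
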